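import Pool.Agent.H22.GH.Transfer

/-!
The criterion: heights of the slopes and exponents of the sums-differences inequality.
-/

set_option autoImplicit false

namespace Pool.Agent.H22.GH

open Finset Filter Topology
open Pool.Agent.Results.MP_169869_co.GeometricMeans (proj MaxBound)
open Pool.Agent.Results.MP_169869_co.FibreMultiplicity.Aux4 (cu cv card_proj)

/-- the primitive vector -/
def prim (v : ℤ × ℤ) : ℤ × ℤ := (v.1 / (Int.gcd v.1 v.2 : ℤ), v.2 / (Int.gcd v.1 v.2 : ℤ))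

lemma gcd_pos {v : ℤ × ℤ} (hv : v ≠ 0) : 0 < Int.gcd v.1 v.2 := by
  rw [Int.gcd_pos_iff]
  by_contra hcon
  push Not at hcon
  exact hv (Prod.ext hcon.1 hcon.2)

lemma prim_mul (v : ℤ × ℤ) :
    v.1 = Int.gcd v.1 v.2 * (prim v).1 ∧ v.2 = Int.gcd v.1 v.2 * (prim v).2 := by
  constructor
  · exact (Int.mul_ediv_cancel' (Int.gcd_dvd_left ..)).symm
  · exact (Int.mul_ediv_cancel' (Int.gcd_dvd_right ..)).symm

lemma prim_coprime {v : ℤ × ℤ} (hv : v ≠ 0) : IsCoprime (prim v).1 (prim v).2 := by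
  rw [Int.isCoprime_iff_gcd_eq_one]
  exact Int.gcd_div_gcd_div_gcd (gcd_pos hv)

lemma lin_prim (v w : ℤ × ℤ) : lin v w = Int.gcd v.1 v.2 * lin (prim v) w := by
  obtain ⟨h1, h2⟩ := prim_mul v
  unfold lin
  nth_rewrite 1 [h1]
  nth_rewrite 2 [h2]
  ring

lemma qf_prim {v : ℤ × ℤ} (hv : v ≠ 0) (α β γ : ℝ) :
    qf α β γ (prim v).1 (prim v).2 = qf α β γ v.1 v.2 / (Int.gcd v.1 v.2 : ℝ) ^ 2 := by
  obtain ⟨h1, h2⟩ := prim_mul v
  have hg : (0 : ℝ) < (Int.gcd v.1 v.2 : ℝ) := by exact_mod_cast gcd_pos hv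
  have h1R : (v.1 : ℝ) = (Int.gcd v.1 v.2 : ℝ) * ((prim v).1 : ℝ) := by exact_mod_cast h1
  have h2R : (v.2 : ℝ) = (Int.gcd v.1 v.2 : ℝ) * ((prim v).2 : ℝ) := by exact_mod_cast h2
  rw [eq_div_iff (by positivity)]
  unfold qf
  generalize (Int.gcd v.1 v.2 : ℝ) = g at *
  rw [h1R, h2R]
  ring

lemma image_prim {n : ℕ} (v : ℤ × ℤ) (A : Finset (Fin n → ℤ × ℤ)) :
    (A.image (fun w k => lin v (w k))).card ≤ (A.image (fun w k => lin (prim v) (w k))).card := by
  classical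
  have h : A.image (fun w k => lin v (w k)) ⊆
      (A.image (fun w k => lin (prim v) (w k))).image
        (fun z k => (Int.gcd v.1 v.2 : ℤ) * z k) := by
    intro z hz
    obtain ⟨w, hw, rfl⟩ := mem_image.1 hz
    rw [mem_image]
    refine ⟨fun k => lin (prim v) (w k), mem_image_of_mem _ hw, ?_⟩
    funext k
    exact (lin_prim v (w k)).symm
  exact (card_le_card h).trans card_image_le

lemma fibre_prim {n : ℕ} {v : ℤ × ℤ} (hv : v ≠ 0) (A : Finset (Fin n → ℤ × ℤ)) {b : ℝ}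
    (hb : 0 ≤ b)
    (h : ∀ z : Fin n → ℤ, ((A.filter (fun w => ∀ k, lin (prim v) (w k) = z k)).card : ℝ) ≤ b)
    (z : Fin n → ℤ) : ((A.filter (fun w => ∀ k, lin v (w k) = z k)).card : ℝ) ≤ b := by
  classical
  rcases (A.filter (fun w => ∀ k, lin v (w k) = z k)).eq_empty_or_nonempty with he | ⟨w0, hw0⟩
  · rw [he, card_empty, Nat.cast_zero]
    exact hb
  · refine le_trans ?_ (h (fun k => lin (prim v) (w0 k)))
    have hsub : A.filter (fun w => ∀ k, lin v (w k) = z k) ⊆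
        A.filter (fun w => ∀ k, lin (prim v) (w k) = lin (prim v) (w0 k)) := by
      intro w hw
      rw [mem_filter] at hw hw0 ⊢
      refine ⟨hw.1, fun k => ?_⟩
      have h1 := (hw.2 k).trans (hw0.2 k).symm
      rw [lin_prim v (w k), lin_prim v (w0 k)] at h1
      have hg : ((Int.gcd v.1 v.2 : ℕ) : ℤ) ≠ 0 := by exact_mod_cast (gcd_pos hv).ne'
      exact mul_left_cancel₀ hg h1
    exact_mod_cast card_le_card hsub

/-- The height of the covector `v` for the form with the coefficients `α`, `β`, `γ`. -/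
noncomputable def hgt (α β γ : ℝ) (v : ℤ × ℤ) : ℝ :=
  Real.log (qf α β γ v.1 v.2 / ((Int.gcd v.1 v.2 : ℝ) ^ 2 * Real.sqrt (α * γ - β ^ 2)))

lemma hgt_eq {α β γ : ℝ} (hα : 0 < α) (hδ : 0 < α * γ - β ^ 2) {v : ℤ × ℤ} (hv : v ≠ 0) :
    hgt α β γ v = Real.log (qf α β γ (prim v).1 (prim v).2) -
      1 / 2 * Real.log (α * γ - β ^ 2) := by
  have hne : ((prim v).1 : ℝ) ≠ 0 ∨ ((prim v).2 : ℝ) ≠ 0 := by
    by_contra hcon
    push Not at hcon
    have h1 : (prim v).1 = 0 := by exact_mod_cast hcon.1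
    have h2 : (prim v).2 = 0 := by exact_mod_cast hcon.2
    obtain ⟨e1, e2⟩ := prim_mul v
    rw [h1, mul_zero] at e1
    rw [h2, mul_zero] at e2
    exact hv (Prod.ext e1 e2)
  have hq := qf_pos hα hδ hne
  have hs : 0 < Real.sqrt (α * γ - β ^ 2) := Real.sqrt_pos.2 hδ
  unfold hgt
  rw [← div_div, ← qf_prim hv, Real.log_div hq.ne' hs.ne', Real.log_sqrt hδ.le]
  ring

lemma vec_ne (r : Option ℚ) : cu r ≠ 0 ∨ cv r ≠ 0 := by
  cases r with
  | none => right; simp [cv]
  | some t => left; simp [cu]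

lemma comb_ne {x y : ℤ × ℤ} (hdet : x.1 * y.2 - x.2 * y.1 ≠ 0) {u v : ℤ} (h : u ≠ 0 ∨ v ≠ 0) :
    u • x + v • y ≠ 0 := by
  intro h0
  have h1 : u * x.1 + v * y.1 = 0 := by
    have := congrArg Prod.fst h0
    simpa using this
  have h2 : u * x.2 + v * y.2 = 0 := by
    have := congrArg Prod.snd h0
    simpa using this
  rcases h with h | h
  · apply hdet
    have : u * (x.1 * y.2 - x.2 * y.1) = 0 := by linear_combination y.2 * h1 - y.1 * h2
    exact (mul_eq_zero.1 this).resolve_left h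
  · apply hdet
    have : v * (x.1 * y.2 - x.2 * y.1) = 0 := by linear_combination x.1 * h2 - x.2 * h1
    exact (mul_eq_zero.1 this).resolve_left h

lemma log_lin_lim {m : ℝ} (hm : 0 < m) :
    Tendsto (fun t : ℝ => Real.log (2 + t * m) - Real.log t) atTop (𝓝 (Real.log m)) := by
  have h1 : Tendsto (fun t : ℝ => 2 / t + m) atTop (𝓝 (0 + m)) := lim_inv.add tendsto_const_nhds
  rw [zero_add] at h1
  refine ((Real.continuousAt_log hm.ne').tendsto.comp h1).congr' ?_
  filter_upwards [eventually_gt_atTop 0] with t ht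
  simp only [Function.comp]
  rw [← Real.log_div (by positivity) ht.ne']
  congr 1
  field_simp

lemma log_Lb_lim {A D : ℝ} (hA : 0 < A) (hD : 0 < D) :
    Tendsto (fun t : ℝ => Real.log (Lb A D t) - 2 * Real.log t) atTop
      (𝓝 (Real.log Real.pi - 1 / 2 * Real.log D)) := by
  have hpi := Real.pi_pos
  have hs : 0 < Real.sqrt D := Real.sqrt_pos.2 hD
  have h1 := Lb_lim hA hD
  have h2 : Real.log (Real.pi / Real.sqrt D) = Real.log Real.pi - 1 / 2 * Real.log D := by
    rw [Real.log_div hpi.ne' hs.ne', Real.log_sqrt hD.le]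
    ring
  rw [← h2]
  have h3 : 0 < Real.pi / Real.sqrt D := by positivity
  refine ((Real.continuousAt_log h3.ne').tendsto.comp h1).congr' ?_
  filter_upwards [eventually_gt_atTop 0, h1.eventually_const_lt h3] with t ht hL
  simp only [Function.comp]
  have hL' : 0 < Lb A D t := by
    have := mul_pos hL (pow_pos ht 2)
    rwa [div_mul_cancel₀ _ (pow_pos ht 2).ne'] at this
  rw [Real.log_div hL'.ne' (pow_pos ht 2).ne', Real.log_pow]
  norm_num

end Pool.Agent.H22.GH
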