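import Pool.Agent.H22.GH.Single

/-!
Comparison of Gaussian sums with different quadratic forms; sums over lines.
-/

set_option autoImplicit false

namespace Pool.Agent.H22.GH

open Finset MeasureTheory Filter Topology Pool.Agent.N68.Corner

/-- the upper bound for the Gaussian sums of the form with the coefficients `A`, `B`, `C` -/
noncomputable def Ub (A D t : ℝ) : ℝ :=
  (2 + t * Real.sqrt (Real.pi / A)) * (2 + t * Real.sqrt (Real.pi * A / D))

/-- the lower bound -/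
noncomputable def Lb (A D t : ℝ) : ℝ :=
  (t * Real.sqrt (Real.pi / A) - 2) * (t * Real.sqrt (Real.pi * A / D) - 2)

lemma sqrt_mul_eq {A D : ℝ} (hA : 0 < A) (hD : 0 < D) :
    Real.sqrt (Real.pi / A) * Real.sqrt (Real.pi * A / D) = Real.pi / Real.sqrt D := by
  have hpi := Real.pi_pos
  rw [← Real.sqrt_mul (by positivity)]
  have : Real.pi / A * (Real.pi * A / D) = Real.pi ^ 2 / D := by
    field_simp
  rw [this, Real.sqrt_div (by positivity), Real.sqrt_sq hpi.le]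

lemma lim_inv : Tendsto (fun t : ℝ => 2 / t) atTop (𝓝 0) :=
  tendsto_const_nhds.div_atTop tendsto_id

lemma Ub_lim {A D : ℝ} (hA : 0 < A) (hD : 0 < D) :
    Tendsto (fun t => Ub A D t / t ^ 2) atTop (𝓝 (Real.pi / Real.sqrt D)) := by
  rw [← sqrt_mul_eq hA hD]
  have h1 : Tendsto (fun t : ℝ => (2 / t + Real.sqrt (Real.pi / A)) *
      (2 / t + Real.sqrt (Real.pi * A / D))) atTop
      (𝓝 ((0 + Real.sqrt (Real.pi / A)) * (0 + Real.sqrt (Real.pi * A / D)))) :=
    (lim_inv.add tendsto_const_nhds).mul (lim_inv.add tendsto_const_nhds)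
  rw [zero_add, zero_add] at h1
  refine h1.congr' ?_
  filter_upwards [eventually_gt_atTop 0] with t ht
  unfold Ub
  field_simp

lemma Lb_lim {A D : ℝ} (hA : 0 < A) (hD : 0 < D) :
    Tendsto (fun t => Lb A D t / t ^ 2) atTop (𝓝 (Real.pi / Real.sqrt D)) := by
  rw [← sqrt_mul_eq hA hD]
  have h1 : Tendsto (fun t : ℝ => (Real.sqrt (Real.pi / A) - 2 / t) *
      (Real.sqrt (Real.pi * A / D) - 2 / t)) atTop
      (𝓝 ((Real.sqrt (Real.pi / A) - 0) * (Real.sqrt (Real.pi * A / D) - 0))) :=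
    (tendsto_const_nhds.sub lim_inv).mul (tendsto_const_nhds.sub lim_inv)
  rw [sub_zero, sub_zero] at h1
  refine h1.congr' ?_
  filter_upwards [eventually_gt_atTop 0] with t ht
  unfold Lb
  field_simp

lemma event {A B C A' B' C' a : ℝ} (hA : 0 < A) (hD : 0 < A * C - B ^ 2) (hA' : 0 < A')
    (hD' : 0 < A' * C' - B' ^ 2)
    (h : Real.exp (-a) * Real.sqrt (A * C - B ^ 2) < Real.sqrt (A' * C' - B' ^ 2)) :
    ∃ ρ : ℝ, 0 < ρ ∧ ρ < 1 ∧ ∀ᶠ t : ℝ in atTop, ∀ F : Finset (ℤ × ℤ),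
      Lb A (A * C - B ^ 2) t ≤ ∑ w ∈ F, Real.exp (-(qf A B C w.1 w.2 / t ^ 2)) →
      Real.exp (-a) * ∑ w ∈ F, Real.exp (-(qf A' B' C' w.1 w.2 / t ^ 2)) ≤
        ρ * ∑ w ∈ F, Real.exp (-(qf A B C w.1 w.2 / t ^ 2)) := by
  have hpi := Real.pi_pos
  set s := Real.sqrt (A * C - B ^ 2) with hs
  set s' := Real.sqrt (A' * C' - B' ^ 2) with hs'
  have hs0 : 0 < s := Real.sqrt_pos.2 hD
  have hs0' : 0 < s' := Real.sqrt_pos.2 hD'
  have he := Real.exp_pos (-a)
  obtain ⟨l, hl⟩ : ∃ l, l = Real.exp (-a) * s / s' := ⟨_, rfl⟩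
  have hl1 : l < 1 := by rw [hl, div_lt_one hs0']; exact h
  have hl0 : 0 < l := by rw [hl]; positivity
  refine ⟨(1 + l) / 2, by linarith, by linarith, ?_⟩
  have h1 : Tendsto (fun t => Real.exp (-a) * (Ub A' (A' * C' - B' ^ 2) t / t ^ 2)) atTop
      (𝓝 (Real.exp (-a) * (Real.pi / s'))) := (Ub_lim hA' hD').const_mul _
  have h2 : Tendsto (fun t => (1 + l) / 2 * (Lb A (A * C - B ^ 2) t / t ^ 2)) atTop
      (𝓝 ((1 + l) / 2 * (Real.pi / s))) := (Lb_lim hA hD).const_mul _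
  have h3 : Real.exp (-a) * (Real.pi / s') < (1 + l) / 2 * (Real.pi / s) := by
    have : Real.exp (-a) * (Real.pi / s') = l * (Real.pi / s) := by
      rw [hl]
      field_simp
    rw [this]
    have : 0 < Real.pi / s := by positivity
    nlinarith
  filter_upwards [h1.eventually_lt h2 h3, eventually_gt_atTop 0] with t ht ht0 F hF
  have h4 : Real.exp (-a) * Ub A' (A' * C' - B' ^ 2) t ≤ (1 + l) / 2 * Lb A (A * C - B ^ 2) t := by
    have h5 : Real.exp (-a) * Ub A' (A' * C' - B' ^ 2) t / t ^ 2 ≤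
        (1 + l) / 2 * Lb A (A * C - B ^ 2) t / t ^ 2 := by
      rw [mul_div_assoc, mul_div_assoc]
      exact ht.le
    exact (div_le_div_iff_of_pos_right (by positivity)).1 h5
  calc _ ≤ Real.exp (-a) * Ub A' (A' * C' - B' ^ 2) t :=
        mul_le_mul_of_nonneg_left (plane_le hA' hD' ht0 F) he.le
    _ ≤ _ := h4
    _ ≤ _ := mul_le_mul_of_nonneg_left hF (by linarith)

/-- sums over the points of a line -/
lemma fibre_le {α β γ : ℝ} (hα : 0 < α) (hδ : 0 < α * γ - β ^ 2) {a b u v : ℤ}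
    (huv : a * u + b * v = 1) {t : ℝ} (ht : 0 < t) (F : Finset (ℤ × ℤ)) (z : ℤ) :
    ∑ w ∈ F.filter (fun w => a * w.1 + b * w.2 = z),
      Real.exp (-(qf (γ / (2 * (α * γ - β ^ 2))) (-β / (2 * (α * γ - β ^ 2)))
        (α / (2 * (α * γ - β ^ 2))) w.1 w.2 / t ^ 2)) ≤
      Real.exp (-((z : ℝ) ^ 2 / (2 * t ^ 2 * qf α β γ a b))) *
        (2 + t * Real.sqrt (2 * Real.pi * (α * γ - β ^ 2) / qf α β γ a b)) := by
  classical
  set δ := α * γ - β ^ 2 with hδ'
  have hγ : 0 < γ := by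
    by_contra hcon
    push Not at hcon
    nlinarith [sq_nonneg β]
  have huvR : (a : ℝ) * u + b * v = 1 := by exact_mod_cast huv
  have hq : 0 < qf α β γ a b := by
    rw [qf_eq hα.ne']
    rcases eq_or_ne (b : ℝ) 0 with hb | hb
    · have ha : (a : ℝ) ≠ 0 := by
        intro ha
        rw [ha, hb] at huvR
        norm_num at huvR
      rw [hb]
      have : 0 < (a : ℝ) ^ 2 := by positivity
      nlinarith
    · have h1 : 0 < (α * γ - β ^ 2) / α * (b : ℝ) ^ 2 := by positivity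
      have h2 : 0 ≤ α * ((a : ℝ) + β / α * b) ^ 2 := by positivity
      linarith
  set q := qf α β γ a b with hq'
  obtain ⟨m, hm⟩ : ∃ m : ℝ, m = -γ * u * b - β * (u * a - v * b) + α * v * a := ⟨_, rfl⟩
  have key : ∀ w ∈ F.filter (fun w => a * w.1 + b * w.2 = z),
      Real.exp (-(qf (γ / (2 * δ)) (-β / (2 * δ)) (α / (2 * δ)) w.1 w.2 / t ^ 2)) =
      Real.exp (-((z : ℝ) ^ 2 / (2 * t ^ 2 * q))) *
        g (q / (2 * δ) / t ^ 2) (((u * w.2 - v * w.1 : ℤ) : ℝ) + m * z / q) := by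
    intro w hw
    have hz : (a : ℝ) * w.1 + b * w.2 = z := by exact_mod_cast (mem_filter.1 hw).2
    obtain ⟨s, hs⟩ : ∃ s : ℝ, s = u * w.2 - v * w.1 := ⟨_, rfl⟩
    have e1 : (w.1 : ℝ) = z * u - s * b := by
      rw [hs, ← hz]
      linear_combination (-(w.1 : ℝ)) * huvR
    have e2 : (w.2 : ℝ) = z * v + s * a := by
      rw [hs, ← hz]
      linear_combination (-(w.2 : ℝ)) * huvR
    unfold g
    rw [← Real.exp_add]
    congr 1
    push_cast
    rw [← hs]
    have h5 : q * (γ * (w.1 : ℝ) ^ 2 - 2 * β * w.1 * w.2 + α * (w.2 : ℝ) ^ 2) =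
        (q * s + m * z) ^ 2 + δ * (z : ℝ) ^ 2 := by
      rw [e1, e2, hm, hq', hδ']
      unfold qf
      have h6 : (1 : ℝ) = (a * u + b * v) ^ 2 := by rw [huvR]; norm_num
      have h7 : (α * γ - β ^ 2) * (z : ℝ) ^ 2 = (α * γ - β ^ 2) * (z : ℝ) ^ 2 * (a * u + b * v) ^ 2 := by
        rw [← h6, mul_one]
      rw [h7]
      ring
    have h8 : qf (γ / (2 * δ)) (-β / (2 * δ)) (α / (2 * δ)) w.1 w.2 =
        (γ * (w.1 : ℝ) ^ 2 - 2 * β * w.1 * w.2 + α * (w.2 : ℝ) ^ 2) / (2 * δ) := by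
      unfold qf
      field_simp
      ring
    have h9 : γ * (w.1 : ℝ) ^ 2 - 2 * β * w.1 * w.2 + α * (w.2 : ℝ) ^ 2 =
        ((q * s + m * z) ^ 2 + δ * (z : ℝ) ^ 2) / q := by
      rw [← h5]
      field_simp
    rw [h8, h9]
    field_simp
    ring
  rw [sum_congr rfl key, ← mul_sum]
  refine mul_le_mul_of_nonneg_left ?_ (Real.exp_pos _).le
  have hinj : Set.InjOn (fun w : ℤ × ℤ => u * w.2 - v * w.1)
      (F.filter (fun w => a * w.1 + b * w.2 = z) : Finset (ℤ × ℤ)) := by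
    rintro ⟨x, y⟩ hw ⟨x', y'⟩ hw' h
    rw [mem_coe, mem_filter] at hw hw'
    simp only at h hw hw'
    have h1 := hw.2
    have h2 := hw'.2
    have e1 : x = x' := by
      linear_combination u * (h1.trans h2.symm) - b * h - (x - x') * huv
    have e2 : y = y' := by
      linear_combination v * (h1.trans h2.symm) + a * h - (y - y') * huv
    rw [e1, e2]
  rw [← sum_image (f := fun s : ℤ => g (q / (2 * δ) / t ^ 2) ((s : ℝ) + m * z / q)) hinj]
  refine (line_le (by positivity) _ _).trans (le_of_eq ?_)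
  congr 1
  have : Real.pi / (q / (2 * δ) / t ^ 2) = t ^ 2 * (2 * Real.pi * δ / q) := by
    field_simp
  rw [this, Real.sqrt_mul (by positivity), Real.sqrt_sq ht.le]

end Pool.Agent.H22.GH
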