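import Pool.Agent.H22.GH.Event

/-!
Typical sequences for a Gaussian law on the pairs of integers.
-/

set_option autoImplicit false

namespace Pool.Agent.H22.GH

open Finset MeasureTheory Filter Topology Pool.Agent.N68.Corner

lemma exp_up {s ε : ℝ} (hs : 0 < s) (hε1 : ε ≤ 1) (h : s ≤ ε / 8) :
    Real.exp (-(s * (1 + ε))) < 1 - s := by
  have hε : 0 < ε := by linarith
  have h1 : |(-(s * (1 + ε)))| ≤ 1 := by
    rw [abs_neg, abs_of_nonneg (by positivity)]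
    nlinarith
  have h2 := (abs_le.1 (Real.abs_exp_sub_one_sub_id_le h1)).2
  have h3 : (1 + ε) ^ 2 ≤ 4 := by nlinarith
  have h4 : s * (1 + ε) ^ 2 ≤ ε / 2 := by nlinarith
  have h5 : s * (s * (1 + ε) ^ 2) ≤ s * (ε / 2) := mul_le_mul_of_nonneg_left h4 hs.le
  have h6 : 0 < s * ε := by positivity
  nlinarith

lemma exp_low {s ε : ℝ} (hs : 0 < s) (hε1 : ε ≤ 1) (h : s ≤ ε / 8) :
    Real.exp (s * (1 - ε)) < 1 + s := by
  have hε : 0 < ε := by linarith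
  have h0 : 0 ≤ 1 - ε := by linarith
  have h1 : |s * (1 - ε)| ≤ 1 := by
    rw [abs_of_nonneg (by positivity)]
    nlinarith
  have h2 := (abs_le.1 (Real.abs_exp_sub_one_sub_id_le h1)).2
  have h3 : (1 - ε) ^ 2 ≤ 1 := by nlinarith
  have h4 : s * (1 - ε) ^ 2 ≤ ε / 8 := by nlinarith
  have h5 : s * (s * (1 - ε) ^ 2) ≤ s * (ε / 8) := mul_le_mul_of_nonneg_left h4 hs.le
  have h6 : 0 < s * ε := by positivity
  nlinarith

section
variable {α β γ : ℝ}

lemma ga_pos (hα : 0 < α) (hδ : 0 < α * γ - β ^ 2) : 0 < γ := by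
  by_contra hcon
  push Not at hcon
  nlinarith [sq_nonneg β]

lemma qf_pos (hα : 0 < α) (hδ : 0 < α * γ - β ^ 2) {x y : ℝ} (h : x ≠ 0 ∨ y ≠ 0) :
    0 < qf α β γ x y := by
  rw [qf_eq hα.ne']
  rcases eq_or_ne y 0 with hy | hy
  · have hx : x ≠ 0 := by
      rcases h with h | h
      · exact h
      · exact absurd hy h
    rw [hy, mul_zero, add_zero]
    have : 0 < x ^ 2 := by positivity
    nlinarith
  · have h1 : 0 < (α * γ - β ^ 2) / α * y ^ 2 := by positivity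
    have h2 : 0 ≤ α * (x + β / α * y) ^ 2 := by positivity
    linarith

lemma qf_ge (hα : 0 < α) (hδ : 0 < α * γ - β ^ 2) (x y : ℝ) :
    (α * γ - β ^ 2) * x ^ 2 ≤ γ * qf α β γ x y := by
  have hγ := ga_pos hα hδ
  unfold qf
  nlinarith [sq_nonneg (β * x + γ * y)]

/-- the perturbed determinant -/
lemma det_pert (hα : 0 < α) (hδ : 0 < α * γ - β ^ 2) {a b : ℝ} (h : a ≠ 0 ∨ b ≠ 0) (σ : ℝ) :
    (γ / (2 * (α * γ - β ^ 2)) - σ * a ^ 2 / qf α β γ a b) *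
      (α / (2 * (α * γ - β ^ 2)) - σ * b ^ 2 / qf α β γ a b) -
      (-β / (2 * (α * γ - β ^ 2)) - σ * (a * b) / qf α β γ a b) ^ 2 =
    (1 - 2 * σ) * (1 / (4 * (α * γ - β ^ 2))) := by
  have hq := qf_pos hα hδ h
  set δ := α * γ - β ^ 2 with hδ'
  set q := qf α β γ a b with hq'
  have h1 : γ * b ^ 2 + 2 * β * (a * b) + α * a ^ 2 = q := by
    rw [hq']
    unfold qf
    ring
  have h2 : (γ / (2 * δ) - σ * a ^ 2 / q) * (α / (2 * δ) - σ * b ^ 2 / q) -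
      (-β / (2 * δ) - σ * (a * b) / q) ^ 2 =
      (α * γ - β ^ 2) / (4 * δ ^ 2) - σ * (γ * b ^ 2 + 2 * β * (a * b) + α * a ^ 2) / (2 * δ * q) := by
    field_simp
    ring
  rw [h2, h1, ← hδ']
  field_simp
  ring

lemma det_base (hδ : 0 < α * γ - β ^ 2) :
    γ / (2 * (α * γ - β ^ 2)) * (α / (2 * (α * γ - β ^ 2))) - (-β / (2 * (α * γ - β ^ 2))) ^ 2 =
    1 / (4 * (α * γ - β ^ 2)) := by
  set δ := α * γ - β ^ 2 with hδ'
  have h2 : γ / (2 * δ) * (α / (2 * δ)) - (-β / (2 * δ)) ^ 2 = (α * γ - β ^ 2) / (4 * δ ^ 2) := by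
    field_simp
    ring
  rw [h2, ← hδ']
  field_simp

/-- the quadratic functions whose sums are prescribed -/
noncomputable def Gf {ι : Type*} (α β γ : ℝ) (ℓ : ι → ℤ × ℤ) (o : Option ι) (w : ℤ × ℤ) : ℝ :=
  match o with
  | none => qf (γ / (2 * (α * γ - β ^ 2))) (-β / (2 * (α * γ - β ^ 2)))
      (α / (2 * (α * γ - β ^ 2))) w.1 w.2
  | some i => ((ℓ i).1 * w.1 + (ℓ i).2 * w.2 : ℝ) ^ 2 / qf α β γ (ℓ i).1 (ℓ i).2

/-- the Gaussian weight -/
noncomputable def fw (α β γ t : ℝ) (w : ℤ × ℤ) : ℝ :=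
  Real.exp (-(qf (γ / (2 * (α * γ - β ^ 2))) (-β / (2 * (α * γ - β ^ 2)))
      (α / (2 * (α * γ - β ^ 2))) w.1 w.2 / t ^ 2))

lemma one_event {ι : Type*} (hα : 0 < α) (hδ : 0 < α * γ - β ^ 2) (ℓ : ι → ℤ × ℤ)
    (hℓ : ∀ i, ℓ i ≠ 0) {ε : ℝ} (hε : 0 < ε) (hε1 : ε ≤ 1) (o : Option ι) {σ a : ℝ}
    (hσ : (σ = ε / 16 ∧ a = ε / 16 * (1 + ε)) ∨ (σ = -(ε / 16) ∧ a = -(ε / 16 * (1 - ε)))) :
    ∃ ρ : ℝ, 0 < ρ ∧ ρ < 1 ∧ ∀ᶠ t : ℝ in atTop, ∀ F : Finset (ℤ × ℤ),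
      Lb (γ / (2 * (α * γ - β ^ 2))) (1 / (4 * (α * γ - β ^ 2))) t ≤ ∑ w ∈ F, fw α β γ t w →
      Real.exp (-a) * ∑ w ∈ F, Real.exp (σ * Gf α β γ ℓ o w / t ^ 2) * fw α β γ t w ≤
        ρ * ∑ w ∈ F, fw α β γ t w := by
  have hγ := ga_pos hα hδ
  have hbase := det_base (α := α) (β := β) (γ := γ) hδ
  have hσ1 : σ < 1 / 2 := by rcases hσ with h | h <;> rw [h.1] <;> linarith
  have hσ2 : -1 / 2 < σ := by rcases hσ with h | h <;> rw [h.1] <;> linarith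
  have hA : 0 < γ / (2 * (α * γ - β ^ 2)) := by positivity
  have hD : 0 < 1 / (4 * (α * γ - β ^ 2)) := by positivity
  have hsq : 0 < Real.sqrt (1 / (4 * (α * γ - β ^ 2))) := Real.sqrt_pos.2 hD
  cases o with
  | none =>
    have hexp : Real.exp (-a) < 1 - σ := by
      rcases hσ with h | h
      · rw [h.1, h.2]
        exact exp_up (by linarith) hε1 (by linarith)
      · rw [h.1, h.2, neg_neg, sub_neg_eq_add]
        exact exp_low (by linarith) hε1 (by linarith)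
    have hD' : (1 - σ) * (γ / (2 * (α * γ - β ^ 2))) * ((1 - σ) * (α / (2 * (α * γ - β ^ 2)))) -
        ((1 - σ) * (-β / (2 * (α * γ - β ^ 2)))) ^ 2 =
        (1 - σ) ^ 2 * (1 / (4 * (α * γ - β ^ 2))) := by
      rw [← hbase]
      ring
    obtain ⟨ρ, h1, h2, h3⟩ := event (a := a) hA (hbase.symm ▸ hD)
      (A' := (1 - σ) * (γ / (2 * (α * γ - β ^ 2))))
      (B' := (1 - σ) * (-β / (2 * (α * γ - β ^ 2))))
      (C' := (1 - σ) * (α / (2 * (α * γ - β ^ 2))))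
      (mul_pos (by linarith) hA) (by rw [hD']; exact mul_pos (by nlinarith) hD)
      (by
        rw [hD', hbase, Real.sqrt_mul (sq_nonneg _), Real.sqrt_sq (by linarith)]
        exact mul_lt_mul_of_pos_right hexp hsq)
    refine ⟨ρ, h1, h2, ?_⟩
    filter_upwards [h3] with t ht F hF
    have h4 := ht F (by rw [hbase]; exact hF)
    refine le_trans (le_of_eq ?_) h4
    congr 1
    refine sum_congr rfl fun w _ => ?_
    unfold fw Gf
    rw [← Real.exp_add]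
    congr 1
    unfold qf
    ring
  | some i =>
    have hexp : Real.exp (-a) < Real.sqrt (1 - 2 * σ) := by
      rw [Real.lt_sqrt (Real.exp_pos _).le, ← Real.exp_nat_mul]
      rcases hσ with h | h
      · rw [h.1, h.2]
        have := exp_up (s := ε / 8) (ε := ε) (by linarith) hε1 (by linarith)
        refine lt_of_le_of_lt (le_of_eq ?_) (this.trans_le (le_of_eq ?_))
        · congr 1
          push_cast
          ring
        · ring
      · rw [h.1, h.2]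
        have := exp_low (s := ε / 8) (ε := ε) (by linarith) hε1 (by linarith)
        refine lt_of_le_of_lt (le_of_eq ?_) (this.trans_le (le_of_eq ?_))
        · congr 1
          push_cast
          ring
        · ring
    have hne : ((ℓ i).1 : ℝ) ≠ 0 ∨ ((ℓ i).2 : ℝ) ≠ 0 := by
      by_contra hcon
      push Not at hcon
      apply hℓ i
      refine Prod.ext ?_ ?_
      · exact_mod_cast hcon.1
      · exact_mod_cast hcon.2
    have hq := qf_pos hα hδ hne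
    have hD' := det_pert hα hδ hne σ
    have hA' : 0 < γ / (2 * (α * γ - β ^ 2)) -
        σ * ((ℓ i).1 : ℝ) ^ 2 / qf α β γ (ℓ i).1 (ℓ i).2 := by
      have h5 := qf_ge hα hδ ((ℓ i).1 : ℝ) ((ℓ i).2 : ℝ)
      have h6 : ((ℓ i).1 : ℝ) ^ 2 / qf α β γ (ℓ i).1 (ℓ i).2 ≤ γ / (α * γ - β ^ 2) := by
        rw [div_le_div_iff₀ hq hδ]
        linarith
      have h7 : 0 ≤ ((ℓ i).1 : ℝ) ^ 2 / qf α β γ (ℓ i).1 (ℓ i).2 := by positivity
      have h8 : γ / (α * γ - β ^ 2) = 2 * (γ / (2 * (α * γ - β ^ 2))) := by field_simp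
      rw [h8] at h6
      have h9 : σ * ((ℓ i).1 : ℝ) ^ 2 / qf α β γ (ℓ i).1 (ℓ i).2 =
          σ * (((ℓ i).1 : ℝ) ^ 2 / qf α β γ (ℓ i).1 (ℓ i).2) := by ring
      rw [h9]
      nlinarith
    obtain ⟨ρ, h1, h2, h3⟩ := event (a := a) hA (hbase.symm ▸ hD)
      (A' := γ / (2 * (α * γ - β ^ 2)) - σ * ((ℓ i).1 : ℝ) ^ 2 / qf α β γ (ℓ i).1 (ℓ i).2)
      (B' := -β / (2 * (α * γ - β ^ 2)) -
        σ * (((ℓ i).1 : ℝ) * ((ℓ i).2 : ℝ)) / qf α β γ (ℓ i).1 (ℓ i).2)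
      (C' := α / (2 * (α * γ - β ^ 2)) - σ * ((ℓ i).2 : ℝ) ^ 2 / qf α β γ (ℓ i).1 (ℓ i).2)
      hA' (by rw [hD']; exact mul_pos (by linarith) hD)
      (by
        rw [hD', hbase, Real.sqrt_mul (by linarith)]
        exact mul_lt_mul_of_pos_right hexp hsq)
    refine ⟨ρ, h1, h2, ?_⟩
    filter_upwards [h3] with t ht F hF
    have h4 := ht F (by rw [hbase]; exact hF)
    refine le_trans (le_of_eq ?_) h4
    congr 1
    refine sum_congr rfl fun w _ => ?_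
    unfold fw Gf
    rw [← Real.exp_add]
    congr 1
    unfold qf
    ring

end

end Pool.Agent.H22.GH
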