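import Pool.Agent.H22.GH.Law

/-!
The typical sequences of a Gaussian law: the three bounds.
-/

set_option autoImplicit false

namespace Pool.Agent.H22.GH

open Finset MeasureTheory Filter Topology Pool.Agent.N68.Corner

section
variable {α β γ : ℝ}

/-- the value of an integral linear form at a pair of integers -/
def lin (ℓ w : ℤ × ℤ) : ℤ := ℓ.1 * w.1 + ℓ.2 * w.2

lemma fw_pos (t : ℝ) (w : ℤ × ℤ) : 0 < fw α β γ t w := Real.exp_pos _

/-- image bound -/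
lemma image_card {n : ℕ} {t q ε : ℝ} (ht : 0 < t) (hq : 0 < q) (ℓ : ℤ × ℤ) (F : Finset (ℤ × ℤ))
    (A : Finset (Fin n → ℤ × ℤ)) (hAF : ∀ w ∈ A, ∀ k, w k ∈ F)
    (hA : ∀ w ∈ A, ∑ k, ((lin ℓ (w k) : ℝ) ^ 2 / q) / t ^ 2 ≤ n * (1 + ε)) :
    ((A.image (fun w k => lin ℓ (w k))).card : ℝ) ≤
      (Real.exp ((1 + ε) / 2) * (2 + t * Real.sqrt (2 * Real.pi * q))) ^ n := by
  classical
  have hκ : 0 < 1 / (2 * t ^ 2 * q) := by positivity
  have h1 : ((A.image (fun w k => lin ℓ (w k))).card : ℝ) ≤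
      ∑ z ∈ A.image (fun w k => lin ℓ (w k)), Real.exp ((1 + ε) / 2) ^ n *
        ∏ k, g (1 / (2 * t ^ 2 * q)) ((z k : ℝ) + 0) := by
    rw [card_eq_sum_ones]
    push_cast
    refine sum_le_sum fun z hz => ?_
    obtain ⟨w, hw, rfl⟩ := mem_image.1 hz
    unfold g
    rw [← Real.exp_sum, ← Real.exp_nat_mul, ← Real.exp_add]
    apply Real.one_le_exp
    have h2 := hA w hw
    have h3 : ∑ k, -(1 / (2 * t ^ 2 * q) * ((lin ℓ (w k) : ℝ) + 0) ^ 2) =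
        -(1 / 2 * ∑ k, ((lin ℓ (w k) : ℝ) ^ 2 / q) / t ^ 2) := by
      rw [mul_sum, ← sum_neg_distrib]
      refine sum_congr rfl fun k _ => ?_
      field_simp
      ring
    rw [h3]
    linarith
  refine h1.trans ?_
  rw [← mul_sum, mul_pow]
  refine mul_le_mul_of_nonneg_left ?_ (by positivity)
  have hsub : A.image (fun w k => lin ℓ (w k)) ⊆
      Fintype.piFinset (fun _ : Fin n => F.image (lin ℓ)) := by
    intro z hz
    obtain ⟨w, hw, rfl⟩ := mem_image.1 hz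
    rw [Fintype.mem_piFinset]
    exact fun k => mem_image_of_mem _ (hAF w hw k)
  refine (sum_le_sum_of_subset_of_nonneg hsub fun z _ _ =>
    prod_nonneg fun k _ => (g_pos _ _).le).trans ?_
  rw [← Finset.prod_univ_sum (fun _ : Fin n => F.image (lin ℓ))
    (fun _ z => g (1 / (2 * t ^ 2 * q)) ((z : ℝ) + 0))]
  rw [prod_const, card_univ, Fintype.card_fin]
  refine pow_le_pow_left₀ (sum_nonneg fun z _ => (g_pos _ _).le) ?_ n
  refine (line_le hκ _ _).trans (le_of_eq ?_)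
  congr 1
  have : Real.pi / (1 / (2 * t ^ 2 * q)) = t ^ 2 * (2 * Real.pi * q) := by
    field_simp
  rw [this, Real.sqrt_mul (by positivity), Real.sqrt_sq ht.le]

/-- fibre bound -/
lemma fibre_card (hα : 0 < α) (hδ : 0 < α * γ - β ^ 2) {n : ℕ} {t ε : ℝ} (ht : 0 < t)
    (ℓ : ℤ × ℤ) (hℓ : IsCoprime ℓ.1 ℓ.2) (F : Finset (ℤ × ℤ))
    (A : Finset (Fin n → ℤ × ℤ)) (hAF : ∀ w ∈ A, ∀ k, w k ∈ F)
    (hA1 : ∀ w ∈ A, n * (1 - ε) ≤
      ∑ k, ((lin ℓ (w k) : ℝ) ^ 2 / qf α β γ ℓ.1 ℓ.2) / t ^ 2)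
    (hA2 : ∀ w ∈ A, ∑ k, qf (γ / (2 * (α * γ - β ^ 2))) (-β / (2 * (α * γ - β ^ 2)))
      (α / (2 * (α * γ - β ^ 2))) (w k).1 (w k).2 / t ^ 2 ≤ n * (1 + ε)) (z : Fin n → ℤ) :
    ((A.filter (fun w => ∀ k, lin ℓ (w k) = z k)).card : ℝ) ≤
      (Real.exp ((1 + ε) - (1 - ε) / 2) *
        (2 + t * Real.sqrt (2 * Real.pi * (α * γ - β ^ 2) / qf α β γ ℓ.1 ℓ.2))) ^ n := by
  classical
  obtain ⟨u, v, huv⟩ := hℓ
  have huv' : ℓ.1 * u + ℓ.2 * v = 1 := by linarith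
  have hne : (ℓ.1 : ℝ) ≠ 0 ∨ (ℓ.2 : ℝ) ≠ 0 := by
    by_contra hcon
    push Not at hcon
    have h1 : ℓ.1 = 0 := by exact_mod_cast hcon.1
    have h2 : ℓ.2 = 0 := by exact_mod_cast hcon.2
    rw [h1, h2] at huv'
    norm_num at huv'
  have hq := qf_pos hα hδ hne
  rcases (A.filter (fun w => ∀ k, lin ℓ (w k) = z k)).eq_empty_or_nonempty with he | ⟨w0, hw0⟩
  · rw [he, card_empty, Nat.cast_zero]
    positivity
  rw [mem_filter] at hw0
  have hz : n * (1 - ε) ≤ ∑ k, ((z k : ℝ) ^ 2 / qf α β γ ℓ.1 ℓ.2) / t ^ 2 := by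
    have := hA1 w0 hw0.1
    refine this.trans (le_of_eq (sum_congr rfl fun k _ => ?_))
    rw [hw0.2 k]
  have h1 : ((A.filter (fun w => ∀ k, lin ℓ (w k) = z k)).card : ℝ) ≤
      ∑ w ∈ A.filter (fun w => ∀ k, lin ℓ (w k) = z k), Real.exp (1 + ε) ^ n *
        ∏ k, fw α β γ t (w k) := by
    rw [card_eq_sum_ones]
    push_cast
    refine sum_le_sum fun w hw => ?_
    unfold fw
    rw [← Real.exp_sum, ← Real.exp_nat_mul, ← Real.exp_add]
    apply Real.one_le_exp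
    have h2 := hA2 w (mem_filter.1 hw).1
    rw [sum_neg_distrib]
    linarith
  refine h1.trans ?_
  rw [← mul_sum]
  have hsub : A.filter (fun w => ∀ k, lin ℓ (w k) = z k) ⊆
      Fintype.piFinset (fun k : Fin n => F.filter (fun w => ℓ.1 * w.1 + ℓ.2 * w.2 = z k)) := by
    intro w hw
    rw [mem_filter] at hw
    rw [Fintype.mem_piFinset]
    exact fun k => mem_filter.2 ⟨hAF w hw.1 k, hw.2 k⟩
  have h3 : ∑ w ∈ A.filter (fun w => ∀ k, lin ℓ (w k) = z k), ∏ k, fw α β γ t (w k) ≤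
      ∏ k : Fin n, (Real.exp (-((z k : ℝ) ^ 2 / (2 * t ^ 2 * qf α β γ ℓ.1 ℓ.2))) *
        (2 + t * Real.sqrt (2 * Real.pi * (α * γ - β ^ 2) / qf α β γ ℓ.1 ℓ.2))) := by
    refine (sum_le_sum_of_subset_of_nonneg hsub fun w _ _ =>
      prod_nonneg fun k _ => (fw_pos _ _).le).trans ?_
    rw [← Finset.prod_univ_sum
      (fun k : Fin n => F.filter (fun w => ℓ.1 * w.1 + ℓ.2 * w.2 = z k))
      (fun _ w => fw α β γ t w)]
    refine prod_le_prod (fun k _ => sum_nonneg fun w _ => (fw_pos _ _).le) fun k _ => ?_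
    exact fibre_le hα hδ huv' ht F (z k)
  rw [prod_mul_distrib, prod_const, card_univ, Fintype.card_fin, ← Real.exp_sum] at h3
  rw [mul_pow]
  have h4 : Real.exp (1 + ε) ^ n *
      Real.exp (∑ k, -((z k : ℝ) ^ 2 / (2 * t ^ 2 * qf α β γ ℓ.1 ℓ.2))) ≤
      Real.exp ((1 + ε) - (1 - ε) / 2) ^ n := by
    rw [← Real.exp_nat_mul, ← Real.exp_nat_mul, ← Real.exp_add]
    apply Real.exp_le_exp.2
    have h5 : ∑ k, -((z k : ℝ) ^ 2 / (2 * t ^ 2 * qf α β γ ℓ.1 ℓ.2)) =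
        -(1 / 2 * ∑ k, ((z k : ℝ) ^ 2 / qf α β γ ℓ.1 ℓ.2) / t ^ 2) := by
      rw [mul_sum, ← sum_neg_distrib]
      refine sum_congr rfl fun k _ => ?_
      field_simp
    rw [h5]
    linarith
  calc _ ≤ Real.exp (1 + ε) ^ n *
        (Real.exp (∑ k, -((z k : ℝ) ^ 2 / (2 * t ^ 2 * qf α β γ ℓ.1 ℓ.2))) *
        (2 + t * Real.sqrt (2 * Real.pi * (α * γ - β ^ 2) / qf α β γ ℓ.1 ℓ.2)) ^ n) :=
        mul_le_mul_of_nonneg_left h3 (by positivity)
    _ = (Real.exp (1 + ε) ^ n *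
        Real.exp (∑ k, -((z k : ℝ) ^ 2 / (2 * t ^ 2 * qf α β γ ℓ.1 ℓ.2)))) *
        (2 + t * Real.sqrt (2 * Real.pi * (α * γ - β ^ 2) / qf α β γ ℓ.1 ℓ.2)) ^ n := by ring
    _ ≤ _ := mul_le_mul_of_nonneg_right h4 (by positivity)

/-- **Typical sequences.** -/
theorem law {ι : Type*} [Fintype ι] (hα : 0 < α) (hδ : 0 < α * γ - β ^ 2) (ℓ : ι → ℤ × ℤ)
    (hℓ : ∀ i, IsCoprime (ℓ i).1 (ℓ i).2) {ε : ℝ} (hε : 0 < ε) (hε1 : ε ≤ 1) :
    ∀ᶠ t : ℝ in atTop, ∀ᶠ n : ℕ in atTop, ∃ A : Finset (Fin n → ℤ × ℤ),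
      1 / 2 * (Lb (γ / (2 * (α * γ - β ^ 2))) (1 / (4 * (α * γ - β ^ 2))) t *
        Real.exp (1 - ε)) ^ n ≤ A.card ∧
      (∀ i, ((A.image (fun w k => lin (ℓ i) (w k))).card : ℝ) ≤
        (Real.exp ((1 + ε) / 2) *
          (2 + t * Real.sqrt (2 * Real.pi * qf α β γ (ℓ i).1 (ℓ i).2))) ^ n) ∧
      (∀ i, ∀ z : Fin n → ℤ, ((A.filter (fun w => ∀ k, lin (ℓ i) (w k) = z k)).card : ℝ) ≤
        (Real.exp ((1 + ε) - (1 - ε) / 2) *
          (2 + t * Real.sqrt (2 * Real.pi * (α * γ - β ^ 2) /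
            qf α β γ (ℓ i).1 (ℓ i).2))) ^ n) := by
  classical
  have hγ := ga_pos hα hδ
  have hne : ∀ i, ℓ i ≠ 0 := by
    intro i h
    have := hℓ i
    rw [h] at this
    obtain ⟨u, v, huv⟩ := this
    simp at huv
  have hneR : ∀ i, ((ℓ i).1 : ℝ) ≠ 0 ∨ ((ℓ i).2 : ℝ) ≠ 0 := by
    intro i
    by_contra hcon
    push Not at hcon
    apply hne i
    refine Prod.ext ?_ ?_
    · exact_mod_cast hcon.1
    · exact_mod_cast hcon.2
  have hA : 0 < γ / (2 * (α * γ - β ^ 2)) := by positivity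
  have hbase := det_base (α := α) (β := β) (γ := γ) hδ
  have hD : 0 < 1 / (4 * (α * γ - β ^ 2)) := by positivity
  -- the parameters of the events
  let E := Option ι × Bool
  let sg : Bool → ℝ := fun b => if b then ε / 16 else -(ε / 16)
  let aa : Bool → ℝ := fun b => if b then ε / 16 * (1 + ε) else -(ε / 16 * (1 - ε))
  have hev : ∀ e : E, ∃ ρ : ℝ, 0 < ρ ∧ ρ < 1 ∧ ∀ᶠ t : ℝ in atTop, ∀ F : Finset (ℤ × ℤ),
      Lb (γ / (2 * (α * γ - β ^ 2))) (1 / (4 * (α * γ - β ^ 2))) t ≤ ∑ w ∈ F, fw α β γ t w →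
      Real.exp (-aa e.2) * ∑ w ∈ F, Real.exp (sg e.2 * Gf α β γ ℓ e.1 w / t ^ 2) *
        fw α β γ t w ≤ ρ * ∑ w ∈ F, fw α β γ t w := by
    intro e
    apply one_event hα hδ ℓ hne hε hε1
    rcases e with ⟨o, b⟩
    cases b
    · right
      simp [sg, aa]
    · left
      simp [sg, aa]
  choose ρ hρ0 hρ1 hρ using hev
  obtain ⟨ρm, hm0, hm1, hm⟩ : ∃ ρm : ℝ, 0 < ρm ∧ ρm < 1 ∧ ∀ e, ρ e ≤ ρm := by
    obtain ⟨e0, -, he0⟩ := exists_max_image (univ : Finset E) ρ ⟨(none, true), mem_univ _⟩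
    exact ⟨ρ e0, hρ0 _, hρ1 _, fun e => he0 e (mem_univ _)⟩
  have hall : ∀ᶠ t : ℝ in atTop, ∀ e : E, ∀ F : Finset (ℤ × ℤ),
      Lb (γ / (2 * (α * γ - β ^ 2))) (1 / (4 * (α * γ - β ^ 2))) t ≤ ∑ w ∈ F, fw α β γ t w →
      Real.exp (-aa e.2) * ∑ w ∈ F, Real.exp (sg e.2 * Gf α β γ ℓ e.1 w / t ^ 2) *
        fw α β γ t w ≤ ρ e * ∑ w ∈ F, fw α β γ t w := eventually_all.2 hρ
  have hbig : ∀ᶠ t : ℝ in atTop, 2 ≤ t * Real.sqrt (Real.pi / (γ / (2 * (α * γ - β ^ 2)))) :=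
    (tendsto_id.atTop_mul_const (Real.sqrt_pos.2 (by positivity))).eventually_ge_atTop 2
  have hbig2 : ∀ᶠ t : ℝ in atTop, 2 ≤ t * Real.sqrt (Real.pi * (γ / (2 * (α * γ - β ^ 2))) /
      (1 / (4 * (α * γ - β ^ 2)))) :=
    (tendsto_id.atTop_mul_const (Real.sqrt_pos.2 (by positivity))).eventually_ge_atTop 2
  filter_upwards [hall, hbig, hbig2, eventually_gt_atTop 0] with t hall hbig hbig2 ht
  obtain ⟨F, hF⟩ := plane_ge hA (hbase.symm ▸ hD) ht hbig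
  rw [hbase] at hF
  have hF' : Lb (γ / (2 * (α * γ - β ^ 2))) (1 / (4 * (α * γ - β ^ 2))) t ≤
      ∑ w ∈ F, fw α β γ t w := hF
  have hL0 : 0 ≤ Lb (γ / (2 * (α * γ - β ^ 2))) (1 / (4 * (α * γ - β ^ 2))) t := by
    unfold Lb
    exact mul_nonneg (by linarith) (by linarith)
  have hn : ∀ᶠ n : ℕ in atTop, (Fintype.card E : ℝ) * ρm ^ n ≤ 1 / 2 := by
    have h1 : Tendsto (fun n : ℕ => (Fintype.card E : ℝ) * ρm ^ n) atTop (𝓝 0) := by
      simpa using (tendsto_pow_atTop_nhds_zero_of_lt_one hm0.le hm1).const_mul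
        (Fintype.card E : ℝ)
    exact (h1.eventually_lt_const (by norm_num)).mono fun n hn => hn.le
  filter_upwards [hn] with n hn
  have htyp := typical F (fw α β γ t) (fun w => (fw_pos t w).le)
    (fun (e : E) w => sg e.2 * Gf α β γ ℓ e.1 w / t ^ 2) (fun e => aa e.2) (ρ := ρm)
    (fun e => (hall e F hF').trans (mul_le_mul_of_nonneg_right (hm e)
      (sum_nonneg fun w _ => (fw_pos t w).le))) n hn
  obtain ⟨A, hAdef⟩ : ∃ A : Finset (Fin n → ℤ × ℤ), A = (W F n).filter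
      (fun w => ∀ e : E, ∑ i, sg e.2 * Gf α β γ ℓ e.1 (w i) / t ^ 2 < n * aa e.2) := ⟨_, rfl⟩
  have hAF : ∀ w ∈ A, ∀ k, w k ∈ F := by
    intro w hw
    rw [hAdef, mem_filter] at hw
    exact mem_W.1 hw.1
  have hup : ∀ w ∈ A, ∀ o : Option ι, ∑ k, Gf α β γ ℓ o (w k) / t ^ 2 ≤ n * (1 + ε) := by
    intro w hw o
    rw [hAdef, mem_filter] at hw
    have h1 := hw.2 (o, true)
    simp only [sg, aa, if_true] at h1
    have h2 : ∑ k, ε / 16 * Gf α β γ ℓ o (w k) / t ^ 2 =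
        ε / 16 * ∑ k, Gf α β γ ℓ o (w k) / t ^ 2 := by
      rw [mul_sum]
      exact sum_congr rfl fun k _ => by ring
    rw [h2] at h1
    have h3 : ε / 16 * ∑ k, Gf α β γ ℓ o (w k) / t ^ 2 < ε / 16 * (n * (1 + ε)) := by
      linarith
    exact (lt_of_mul_lt_mul_left h3 (by positivity)).le
  have hlow : ∀ w ∈ A, ∀ o : Option ι, n * (1 - ε) ≤ ∑ k, Gf α β γ ℓ o (w k) / t ^ 2 := by
    intro w hw o
    rw [hAdef, mem_filter] at hw
    have h1 := hw.2 (o, false)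
    simp only [sg, aa] at h1
    have h2 : ∑ k, -(ε / 16) * Gf α β γ ℓ o (w k) / t ^ 2 =
        -(ε / 16 * ∑ k, Gf α β γ ℓ o (w k) / t ^ 2) := by
      rw [mul_sum, ← sum_neg_distrib]
      exact sum_congr rfl fun k _ => by ring
    simp only [Bool.false_eq_true, if_false] at h1
    rw [h2] at h1
    have h3 : ε / 16 * (n * (1 - ε)) < ε / 16 * ∑ k, Gf α β γ ℓ o (w k) / t ^ 2 := by
      linarith
    exact (lt_of_mul_lt_mul_left h3 (by positivity)).le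
  refine ⟨A, ?_, fun i => ?_, fun i z => ?_⟩
  · have h1 : ∑ w ∈ A, ∏ i, fw α β γ t (w i) ≤ ∑ w ∈ A, Real.exp (-(1 - ε)) ^ n := by
      refine sum_le_sum fun w hw => ?_
      have h2 := hlow w hw none
      unfold fw
      rw [← Real.exp_sum, ← Real.exp_nat_mul]
      apply Real.exp_le_exp.2
      simp only [Gf] at h2
      rw [sum_neg_distrib]
      linarith
    rw [sum_const, nsmul_eq_mul] at h1
    have h3 : 1 / 2 * (∑ x ∈ F, fw α β γ t x) ^ n ≤ ∑ w ∈ A, ∏ i, fw α β γ t (w i) := by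
      rw [hAdef]
      refine htyp.trans (le_of_eq (sum_congr ?_ fun _ _ => rfl))
      ext w
      simp only [mem_filter]
    have h4 : (Lb (γ / (2 * (α * γ - β ^ 2))) (1 / (4 * (α * γ - β ^ 2))) t) ^ n ≤
        (∑ x ∈ F, fw α β γ t x) ^ n := pow_le_pow_left₀ hL0 hF' n
    have h5 : Real.exp (-(1 - ε)) ^ n * Real.exp (1 - ε) ^ n = 1 := by
      rw [← mul_pow, ← Real.exp_add]
      simp
    rw [mul_pow, ← mul_assoc]
    calc _ ≤ (A.card * Real.exp (-(1 - ε)) ^ n) * Real.exp (1 - ε) ^ n := by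
          refine mul_le_mul_of_nonneg_right ?_ (by positivity)
          linarith
      _ = _ := by rw [mul_assoc, h5, mul_one]
  · refine image_card ht (qf_pos hα hδ (hneR i)) (ℓ i) F A hAF fun w hw => ?_
    have h1 := hup w hw (some i)
    refine le_trans (le_of_eq (sum_congr rfl fun k _ => ?_)) h1
    simp only [Gf, lin]
    push_cast
    rfl
  · refine le_trans (le_of_eq (congrArg (fun s : Finset (Fin n → ℤ × ℤ) => (s.card : ℝ)) ?_))
      (fibre_card hα hδ ht (ℓ i) (hℓ i) F A hAF (fun w hw => ?_) (fun w hw => ?_) z)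
    · ext w
      simp only [mem_filter]
    · have h1 := hlow w hw (some i)
      refine h1.trans (le_of_eq (sum_congr rfl fun k _ => ?_))
      simp only [Gf, lin]
      push_cast
      rfl
    · have h1 := hup w hw none
      simpa only [Gf] using h1

end

end Pool.Agent.H22.GH
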