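import Pool.Agent.H22.GH.Criterion

/-!
The criterion: heights of the slopes and exponents of the sums-differences inequality.
-/

set_option autoImplicit false

namespace Pool.Agent.H22.GH

open Finset Filter Topology
open Pool.Agent.Results.MP_169869_co.GeometricMeans (proj MaxBound)
open Pool.Agent.Results.MP_169869_co.FibreMultiplicity.Aux4 (cu cv card_proj)

lemma prim_ne {v : ℤ × ℤ} (hv : v ≠ 0) : ((prim v).1 : ℝ) ≠ 0 ∨ ((prim v).2 : ℝ) ≠ 0 := by
  by_contra hcon
  push Not at hcon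
  have h1 : (prim v).1 = 0 := by exact_mod_cast hcon.1
  have h2 : (prim v).2 = 0 := by exact_mod_cast hcon.2
  obtain ⟨e1, e2⟩ := prim_mul v
  rw [h1, mul_zero] at e1
  rw [h2, mul_zero] at e2
  exact hv (Prod.ext e1 e2)

lemma term_eq {c ε δ qD q : ℝ} (hδ : 0 < δ) (hqD : 0 < qD) (hq : 0 < q) :
    (Real.log Real.pi - 1 / 2 * Real.log (1 / (4 * δ))) + (1 - ε) -
      (2 - c) * ((1 + ε) - (1 - ε) / 2 + Real.log (Real.sqrt (2 * Real.pi * δ / qD))) -
      c * ((1 + ε) / 2 + Real.log (Real.sqrt (2 * Real.pi * q))) =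
    1 / 2 * ((2 - c) * (Real.log qD - 1 / 2 * Real.log δ) - c * (Real.log q - 1 / 2 * Real.log δ)) -
      ε * (4 - c) := by
  have hpi := Real.pi_pos
  have e1 : Real.log (1 / (4 * δ)) = -(2 * Real.log 2 + Real.log δ) := by
    rw [one_div, Real.log_inv, Real.log_mul (by norm_num) hδ.ne']
    have : Real.log 4 = 2 * Real.log 2 := by
      rw [show (4 : ℝ) = 2 ^ 2 by norm_num, Real.log_pow]
      norm_num
    rw [this]
  have e2 : Real.log (Real.sqrt (2 * Real.pi * δ / qD)) =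
      1 / 2 * (Real.log 2 + Real.log Real.pi + Real.log δ - Real.log qD) := by
    rw [Real.log_sqrt (by positivity), Real.log_div (by positivity) hqD.ne',
      Real.log_mul (by positivity) hδ.ne', Real.log_mul (by norm_num) hpi.ne']
    ring
  have e3 : Real.log (Real.sqrt (2 * Real.pi * q)) =
      1 / 2 * (Real.log 2 + Real.log Real.pi + Real.log q) := by
    rw [Real.log_sqrt (by positivity), Real.log_mul (by positivity) hq.ne',
      Real.log_mul (by norm_num) hpi.ne']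
    ring
  rw [e1, e2, e3]
  ring

lemma final_contra {J : Type*} [Fintype J] {c n l : ℝ} (a b d : J → ℝ)
    (h1 : ∑ j, (-l + n * a j) ≤ (2 - c) * ∑ j, n * b j + c * ∑ j, n * d j)
    (h2 : Fintype.card J * l < n * ∑ j, (a j - (2 - c) * b j - c * d j)) : False := by
  rw [sum_add_distrib, sum_const, card_univ, nsmul_eq_mul, ← mul_sum, ← mul_sum, ← mul_sum] at h1
  rw [sum_sub_distrib, sum_sub_distrib, ← mul_sum, ← mul_sum] at h2
  nlinarith

/-- **The criterion.** -/
theorem criterion {S : Finset (Option ℚ)} (hS : some (-1) ∉ S) {c : ℝ} (hc1 : 1 ≤ c)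
    (hc2 : c ≤ 2) (h : MaxBound S c) {J : Type*} [Fintype J] (α β γ : J → ℝ) (hα : ∀ j, 0 < α j)
    (hδ : ∀ j, 0 < α j * γ j - β j ^ 2) (x y : J → ℤ × ℤ)
    (hdet : ∀ j, (x j).1 * (y j).2 - (x j).2 * (y j).1 ≠ 0) :
    ∃ r ∈ S, (2 - c) * ∑ j, hgt (α j) (β j) (γ j) (x j - y j) ≤
      c * ∑ j, hgt (α j) (β j) (γ j) (cu r • x j + cv r • y j) := by
  classical
  have hpi := Real.pi_pos
  by_contra hcon
  push Not at hcon
  have hD : ∀ j, x j - y j ≠ 0 := by
    intro j
    have h1 := comb_ne (hdet j) (u := 1) (v := -1) (Or.inl one_ne_zero)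
    have h2 : x j - y j = (1 : ℤ) • x j + (-1 : ℤ) • y j := by
      rw [one_smul, neg_one_smul, sub_eq_add_neg]
    rw [h2]
    exact h1
  have hv : ∀ (r : Option ℚ) j, cu r • x j + cv r • y j ≠ 0 := fun r j => comb_ne (hdet j) (vec_ne r)
  have hqD : ∀ j, 0 < qf (α j) (β j) (γ j) (prim (x j - y j)).1 (prim (x j - y j)).2 :=
    fun j => qf_pos (hα j) (hδ j) (prim_ne (hD j))
  have hq : ∀ (r : Option ℚ) j, 0 < qf (α j) (β j) (γ j) (prim (cu r • x j + cv r • y j)).1
      (prim (cu r • x j + cv r • y j)).2 := fun r j => qf_pos (hα j) (hδ j) (prim_ne (hv r j))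
  -- the gap
  obtain ⟨gap, hgap⟩ : ∃ gap : Option ℚ → ℝ, gap = fun r =>
      (2 - c) * ∑ j, hgt (α j) (β j) (γ j) (x j - y j) -
        c * ∑ j, hgt (α j) (β j) (γ j) (cu r • x j + cv r • y j) := ⟨_, rfl⟩
  have hgap0 : ∀ r ∈ S, 0 < gap r := by
    intro r hr
    rw [hgap]
    have := hcon r hr
    simp only
    linarith
  -- the choice of `ε`
  obtain ⟨ε, hε, hε1, hεg⟩ : ∃ ε : ℝ, 0 < ε ∧ ε ≤ 1 ∧
      ∀ r ∈ S, ε * (4 * Fintype.card J) < 1 / 2 * gap r := by
    have h1 : ∀ᶠ ε : ℝ in 𝓝[>] 0, ∀ r ∈ S, ε * (4 * Fintype.card J) < 1 / 2 * gap r := by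
      rw [eventually_all_finset]
      intro r hr
      have h2 : Tendsto (fun ε : ℝ => ε * (4 * Fintype.card J)) (𝓝[>] 0)
          (𝓝 (0 * (4 * Fintype.card J))) :=
        (tendsto_nhdsWithin_of_tendsto_nhds tendsto_id).mul_const _
      rw [zero_mul] at h2
      exact h2.eventually_lt_const (by have := hgap0 r hr; linarith)
    have h2 : ∀ᶠ ε : ℝ in 𝓝[>] 0, ε ≤ 1 := by
      filter_upwards [Ioc_mem_nhdsGT (zero_lt_one (α := ℝ))] with ε hε
      exact hε.2
    obtain ⟨ε, h3, h4, h5⟩ := (h1.and (h2.and self_mem_nhdsWithin)).exists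
    exact ⟨ε, h5, h4, h3⟩
  -- the functions of `t`
  obtain ⟨mD, hmD⟩ : ∃ mD : J → ℝ, mD = fun j => Real.sqrt (2 * Real.pi *
      (α j * γ j - β j ^ 2) / qf (α j) (β j) (γ j) (prim (x j - y j)).1 (prim (x j - y j)).2) :=
    ⟨_, rfl⟩
  obtain ⟨m, hm⟩ : ∃ m : Option ℚ → J → ℝ, m = fun r j => Real.sqrt (2 * Real.pi *
      qf (α j) (β j) (γ j) (prim (cu r • x j + cv r • y j)).1
        (prim (cu r • x j + cv r • y j)).2) := ⟨_, rfl⟩
  obtain ⟨L, hL⟩ : ∃ L : J → ℝ → ℝ, L = fun j t =>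
      Lb (γ j / (2 * (α j * γ j - β j ^ 2))) (1 / (4 * (α j * γ j - β j ^ 2))) t := ⟨_, rfl⟩
  have hmD0 : ∀ j, 0 < mD j := by
    intro j
    rw [hmD]
    have := hδ j
    have := hqD j
    exact Real.sqrt_pos.2 (by positivity)
  have hm0 : ∀ r j, 0 < m r j := by
    intro r j
    rw [hm]
    have := hq r j
    exact Real.sqrt_pos.2 (by positivity)
  have hA0 : ∀ j, 0 < γ j / (2 * (α j * γ j - β j ^ 2)) := by
    intro j
    have := ga_pos (hα j) (hδ j)
    have := hδ j
    positivity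
  have hD0 : ∀ j, 0 < 1 / (4 * (α j * γ j - β j ^ 2)) := by
    intro j
    have := hδ j
    positivity
  obtain ⟨Φ, hΦ⟩ : ∃ Φ : Option ℚ → ℝ → ℝ, Φ = fun r t => ∑ j, ((Real.log (L j t) + (1 - ε)) -
      (2 - c) * ((1 + ε) - (1 - ε) / 2 + Real.log (2 + t * mD j)) -
      c * ((1 + ε) / 2 + Real.log (2 + t * m r j))) := ⟨_, rfl⟩
  have hΦlim : ∀ r, Tendsto (Φ r) atTop (𝓝 (1 / 2 * gap r - ε * (4 - c) * Fintype.card J)) := by
    intro r
    have h1 : Tendsto (fun t : ℝ => ∑ j, ((Real.log (L j t) - 2 * Real.log t + (1 - ε)) -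
        (2 - c) * ((1 + ε) - (1 - ε) / 2 + (Real.log (2 + t * mD j) - Real.log t)) -
        c * ((1 + ε) / 2 + (Real.log (2 + t * m r j) - Real.log t)))) atTop
        (𝓝 (∑ j, ((Real.log Real.pi - 1 / 2 * Real.log (1 / (4 * (α j * γ j - β j ^ 2)))) +
          (1 - ε) - (2 - c) * ((1 + ε) - (1 - ε) / 2 + Real.log (mD j)) -
          c * ((1 + ε) / 2 + Real.log (m r j))))) := by
      refine tendsto_finsetSum _ fun j _ => ?_
      have e1 : Tendsto (fun t => Real.log (L j t) - 2 * Real.log t) atTop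
          (𝓝 (Real.log Real.pi - 1 / 2 * Real.log (1 / (4 * (α j * γ j - β j ^ 2))))) := by
        rw [hL]
        exact log_Lb_lim (hA0 j) (hD0 j)
      have e2 := log_lin_lim (hmD0 j)
      have e3 := log_lin_lim (hm0 r j)
      exact ((e1.add_const _).sub ((e2.const_add _).const_mul _)).sub ((e3.const_add _).const_mul _)
    have h2 : (∑ j, ((Real.log Real.pi - 1 / 2 * Real.log (1 / (4 * (α j * γ j - β j ^ 2)))) +
          (1 - ε) - (2 - c) * ((1 + ε) - (1 - ε) / 2 + Real.log (mD j)) -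
          c * ((1 + ε) / 2 + Real.log (m r j)))) =
        1 / 2 * gap r - ε * (4 - c) * Fintype.card J := by
      rw [hgap]
      simp only
      have h3 : ∀ j ∈ (univ : Finset J),
          ((Real.log Real.pi - 1 / 2 * Real.log (1 / (4 * (α j * γ j - β j ^ 2)))) +
          (1 - ε) - (2 - c) * ((1 + ε) - (1 - ε) / 2 + Real.log (mD j)) -
          c * ((1 + ε) / 2 + Real.log (m r j))) =
          1 / 2 * ((2 - c) * hgt (α j) (β j) (γ j) (x j - y j) -
            c * hgt (α j) (β j) (γ j) (cu r • x j + cv r • y j)) - ε * (4 - c) := by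
        intro j _
        rw [hgt_eq (hα j) (hδ j) (hD j), hgt_eq (hα j) (hδ j) (hv r j), hmD, hm]
        exact term_eq (hδ j) (hqD j) (hq r j)
      rw [sum_congr rfl h3, sum_sub_distrib, sum_const, card_univ, ← mul_sum, sum_sub_distrib,
        ← mul_sum, ← mul_sum, nsmul_eq_mul]
      ring
    rw [← h2]
    refine h1.congr fun t => ?_
    rw [hΦ]
    refine sum_congr rfl fun j _ => ?_
    ring
  have hΦpos : ∀ r ∈ S, ∀ᶠ t : ℝ in atTop, 0 < Φ r t := by
    intro r hr
    refine (hΦlim r).eventually_const_lt ?_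
    have h1 := hεg r hr
    have h2 : ε * (4 - c) * (Fintype.card J : ℝ) ≤ ε * (4 * Fintype.card J) := by
      have : 0 ≤ ε * (Fintype.card J : ℝ) := by positivity
      nlinarith
    linarith
  have hLpos : ∀ᶠ t : ℝ in atTop, ∀ j, 0 < L j t := by
    rw [eventually_all]
    intro j
    have h1 := Lb_lim (hA0 j) (hD0 j)
    have h3 : 0 < Real.pi / Real.sqrt (1 / (4 * (α j * γ j - β j ^ 2))) := by
      have := Real.sqrt_pos.2 (hD0 j)
      positivity
    filter_upwards [eventually_gt_atTop 0, h1.eventually_const_lt h3] with t ht hLt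
    rw [hL]
    have := mul_pos hLt (pow_pos ht 2)
    rwa [div_mul_cancel₀ _ (pow_pos ht 2).ne'] at this
  -- the typical sequences
  let ℓ : J → Option S → ℤ × ℤ := fun j o => match o with
    | none => prim (x j - y j)
    | some r => prim (cu (r : Option ℚ) • x j + cv (r : Option ℚ) • y j)
  have hℓ : ∀ j o, IsCoprime (ℓ j o).1 (ℓ j o).2 := by
    intro j o
    cases o with
    | none => exact prim_coprime (hD j)
    | some r => exact prim_coprime (hv r j)
  have hlaw : ∀ᶠ t : ℝ in atTop, ∀ j, ∀ᶠ n : ℕ in atTop, ∃ A : Finset (Fin n → ℤ × ℤ),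
      1 / 2 * (Lb (γ j / (2 * (α j * γ j - β j ^ 2))) (1 / (4 * (α j * γ j - β j ^ 2))) t *
        Real.exp (1 - ε)) ^ n ≤ A.card ∧
      (∀ i, ((A.image (fun w k => lin (ℓ j i) (w k))).card : ℝ) ≤
        (Real.exp ((1 + ε) / 2) *
          (2 + t * Real.sqrt (2 * Real.pi * qf (α j) (β j) (γ j) (ℓ j i).1 (ℓ j i).2))) ^ n) ∧
      (∀ i, ∀ z : Fin n → ℤ, ((A.filter (fun w => ∀ k, lin (ℓ j i) (w k) = z k)).card : ℝ) ≤
        (Real.exp ((1 + ε) - (1 - ε) / 2) *
          (2 + t * Real.sqrt (2 * Real.pi * (α j * γ j - β j ^ 2) /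
            qf (α j) (β j) (γ j) (ℓ j i).1 (ℓ j i).2))) ^ n) :=
    eventually_all.2 fun j => law (hα j) (hδ j) (ℓ j) (hℓ j) hε hε1
  obtain ⟨t, hΦt, hLt, hlawt, ht⟩ := ((eventually_all_finset S).2 hΦpos |>.and
    (hLpos.and (hlaw.and (eventually_gt_atTop (0 : ℝ))))).exists
  have hnΦ : ∀ᶠ n : ℕ in atTop, ∀ r ∈ S, Fintype.card J * Real.log 2 < n * Φ r t := by
    rw [eventually_all_finset]
    intro r hr
    exact ((tendsto_natCast_atTop_atTop (R := ℝ)).atTop_mul_const (hΦt r hr)).eventually_gt_atTop _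
  obtain ⟨n, hn1, hn2⟩ := (hnΦ.and (eventually_all.2 hlawt)).exists
  choose A hA1 hA2 hA3 using hn2
  have hApos : ∀ j, (0 : ℝ) < (A j).card := by
    intro j
    refine lt_of_lt_of_le ?_ (hA1 j)
    have := hLt j
    rw [hL] at this
    positivity
  have hAne : ∀ j, (A j).Nonempty := fun j => card_pos.1 (by exact_mod_cast hApos j)
  obtain ⟨bD, hbD⟩ : ∃ bD : J → ℝ, bD = fun j =>
      Real.exp ((1 + ε) - (1 - ε) / 2) * (2 + t * mD j) := ⟨_, rfl⟩
  obtain ⟨b, hb⟩ : ∃ b : Option ℚ → J → ℝ, b = fun r j =>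
      Real.exp ((1 + ε) / 2) * (2 + t * m r j) := ⟨_, rfl⟩
  have hbD0 : ∀ j, 0 < bD j := by
    intro j
    rw [hbD]
    have := hmD0 j
    positivity
  have hb0 : ∀ r j, 0 < b r j := by
    intro r j
    rw [hb]
    have := hm0 r j
    positivity
  have hM : ∀ j, ∀ z : Fin n → ℤ,
      ((A j).filter (fun w => ∀ k, lin (x j - y j) (w k) = z k)).card ≤ ⌊bD j ^ n⌋₊ := by
    intro j z
    rw [Nat.le_floor_iff (pow_nonneg (hbD0 j).le n)]
    refine fibre_prim (hD j) (A j) (pow_nonneg (hbD0 j).le n) (fun z => ?_) z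
    rw [hbD, hmD]
    exact hA3 j none z
  obtain ⟨r, hr, hmain⟩ := transfer hS hc1 hc2 h x y hdet A hAne (fun j => ⌊bD j ^ n⌋₊) hM
  have him : ∀ j, (((A j).image (fun w k => lin (cu r • x j + cv r • y j) (w k))).card : ℝ) ≤
      b r j ^ n := by
    intro j
    have h1 : (((A j).image (fun w k => lin (cu r • x j + cv r • y j) (w k))).card : ℝ) ≤
        (((A j).image (fun w k => lin (prim (cu r • x j + cv r • y j)) (w k))).card : ℝ) := by
      exact_mod_cast image_prim _ (A j)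
    refine h1.trans ?_
    rw [hb, hm]
    exact hA2 j (some ⟨r, hr⟩)
  have hfin : ∏ j, (1 / 2 * (L j t * Real.exp (1 - ε)) ^ n) ≤
      (∏ j, bD j ^ n) ^ (2 - c) * (∏ j, b r j ^ n) ^ c := by
    have hM1 : ∏ j, ((⌊bD j ^ n⌋₊ : ℕ) : ℝ) ≤ ∏ j, bD j ^ n :=
      prod_le_prod (fun j _ => Nat.cast_nonneg _) fun j _ =>
        Nat.floor_le (pow_nonneg (hbD0 j).le n)
    have hM2 : ∏ j, (((A j).image
        (fun w k => lin (cu r • x j + cv r • y j) (w k))).card : ℝ) ≤ ∏ j, b r j ^ n :=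
      prod_le_prod (fun j _ => Nat.cast_nonneg _) fun j _ => him j
    have hM3 : ∏ j, (1 / 2 * (L j t * Real.exp (1 - ε)) ^ n) ≤ ∏ j, ((A j).card : ℝ) := by
      refine prod_le_prod (fun j _ => ?_) fun j _ => ?_
      · have := hLt j
        positivity
      · rw [hL]
        exact hA1 j
    refine (hM3.trans hmain).trans ?_
    exact mul_le_mul
      (Real.rpow_le_rpow (prod_nonneg fun _ _ => Nat.cast_nonneg _) hM1 (by linarith))
      (Real.rpow_le_rpow (prod_nonneg fun _ _ => Nat.cast_nonneg _) hM2 (by linarith))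
      (Real.rpow_nonneg (prod_nonneg fun _ _ => Nat.cast_nonneg _) _)
      (Real.rpow_nonneg (prod_nonneg fun j _ => pow_nonneg (hbD0 j).le n) _)
  have hposD : 0 < ∏ j, bD j ^ n := prod_pos fun j _ => pow_pos (hbD0 j) n
  have hposr : 0 < ∏ j, b r j ^ n := prod_pos fun j _ => pow_pos (hb0 r j) n
  have hposL : ∀ j, 0 < 1 / 2 * (L j t * Real.exp (1 - ε)) ^ n := by
    intro j
    have := hLt j
    positivity
  have hlog := Real.log_le_log (prod_pos fun j _ => hposL j) hfin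
  rw [Real.log_mul (Real.rpow_pos_of_pos hposD _).ne' (Real.rpow_pos_of_pos hposr _).ne',
    Real.log_rpow hposD, Real.log_rpow hposr, Real.log_prod (fun j _ => (hposL j).ne'),
    Real.log_prod (fun j _ => (pow_pos (hbD0 j) n).ne'),
    Real.log_prod (fun j _ => (pow_pos (hb0 r j) n).ne')] at hlog
  have e1 : ∀ j ∈ (univ : Finset J), Real.log (1 / 2 * (L j t * Real.exp (1 - ε)) ^ n) =
      -Real.log 2 + n * (Real.log (L j t) + (1 - ε)) := by
    intro j _
    have := hLt j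
    rw [Real.log_mul (by norm_num) (by positivity), Real.log_pow,
      Real.log_mul this.ne' (Real.exp_pos _).ne', Real.log_exp, one_div, Real.log_inv]
  have e2 : ∀ j ∈ (univ : Finset J), Real.log (bD j ^ n) =
      n * ((1 + ε) - (1 - ε) / 2 + Real.log (2 + t * mD j)) := by
    intro j _
    have := hmD0 j
    rw [hbD, Real.log_pow, Real.log_mul (Real.exp_pos _).ne' (by positivity), Real.log_exp]
  have e3 : ∀ j ∈ (univ : Finset J), Real.log (b r j ^ n) =
      n * ((1 + ε) / 2 + Real.log (2 + t * m r j)) := by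
    intro j _
    have := hm0 r j
    rw [hb, Real.log_pow, Real.log_mul (Real.exp_pos _).ne' (by positivity), Real.log_exp]
  rw [sum_congr rfl e1, sum_congr rfl e2, sum_congr rfl e3] at hlog
  have h6 := hn1 r hr
  rw [hΦ] at h6
  exact final_contra _ _ _ hlog h6

end Pool.Agent.H22.GH
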