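import Mathlib

/-!
# The parabola modulo a product of primes

For integers `u`, `w` let `V M u w` be the set of the integers `u d + w (d ^ 2 mod M)`, `0 ≤ d < M`.
If `M` is a product of different primes, this set has at most
`(|u| + |w| + 1) M (2 / 3) ^ g` elements, where `g` is the number of the odd primes `p ∣ M`, `p ∤ w`.
-/

set_option autoImplicit false

namespace Pool.Agent.H22.GH.Parab

open Finset

/-- The image of a quadratic polynomial modulo an odd prime. -/
lemma card_image_quad {p : ℕ} [hF : Fact p.Prime] (hp : p ≠ 2) (u w : ZMod p) (hw : w ≠ 0) :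
    2 * (univ.image fun d : ZMod p => u * d + w * d ^ 2).card ≤ p + 1 := by
  have hodd : Odd p := hF.out.odd_of_ne_two hp
  have h2 : (2 : ZMod p) ≠ 0 := by
    intro h
    have h3 : ((2 : ℕ) : ZMod p) = 0 := by exact_mod_cast h
    rw [ZMod.natCast_eq_zero_iff] at h3
    have := (Nat.prime_dvd_prime_iff_eq hF.out Nat.prime_two).1 h3
    exact hp this
  obtain ⟨h, hh⟩ : ∃ h : ZMod p, h = u / (2 * w) := ⟨_, rfl⟩
  have hu : u = 2 * w * h := by
    rw [hh]
    field_simp
  have hsub : (univ.image fun d : ZMod p => u * d + w * d ^ 2) ⊆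
      (range (p / 2 + 1)).image (fun k : ℕ => w * (k : ZMod p) ^ 2 - w * h ^ 2) := by
    intro z hz
    obtain ⟨d, -, rfl⟩ := mem_image.1 hz
    refine mem_image.2 ⟨(d + h).valMinAbs.natAbs, ?_, ?_⟩
    · exact mem_range.2 (Nat.lt_succ_of_le (ZMod.natAbs_valMinAbs_le _))
    · have e0 : (((d + h).valMinAbs.natAbs : ℤ)) ^ 2 = (d + h).valMinAbs ^ 2 := Int.natAbs_sq _
      have e : (((d + h).valMinAbs.natAbs : ℕ) : ZMod p) ^ 2 = (d + h) ^ 2 := by
        have h3 := congrArg (Int.cast : ℤ → ZMod p) e0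
        rw [Int.cast_pow, Int.cast_pow, ZMod.coe_valMinAbs, Int.cast_natCast] at h3
        exact h3
      rw [e, hu]
      ring
  have h3 := (card_le_card hsub).trans card_image_le
  rw [card_range] at h3
  obtain ⟨k, hk⟩ := hodd
  omega

/-- residues of the values -/
def J (u w : ℤ) (p : ℕ) : Finset ℤ := (range p).image fun d : ℕ => (u * d + w * d ^ 2) % (p : ℤ)

lemma card_J_le (u w : ℤ) (p : ℕ) : (J u w p).card ≤ p := by
  unfold J
  exact card_image_le.trans (by rw [card_range])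

lemma card_J {u w : ℤ} {p : ℕ} (hp : p.Prime) (hp2 : p ≠ 2) (hw : ¬ (p : ℤ) ∣ w) :
    2 * (J u w p).card ≤ p + 1 := by
  have hF : Fact p.Prime := ⟨hp⟩
  have hw' : (w : ZMod p) ≠ 0 := fun h => hw ((ZMod.intCast_zmod_eq_zero_iff_dvd w p).1 h)
  refine le_trans (Nat.mul_le_mul_left 2 ?_) (card_image_quad hp2 (u : ZMod p) (w : ZMod p) hw')
  have hsub : J u w p ⊆ (univ.image fun d : ZMod p => (u : ZMod p) * d + (w : ZMod p) * d ^ 2).image
      (fun z : ZMod p => ((z.val : ℕ) : ℤ)) := by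
    intro v hv
    obtain ⟨d, -, rfl⟩ := mem_image.1 hv
    refine mem_image.2 ⟨(((u * d + w * d ^ 2 : ℤ)) : ZMod p), mem_image.2 ⟨(d : ZMod p),
      mem_univ _, by push_cast; ring⟩, ?_⟩
    exact ZMod.val_intCast _
  exact (card_le_card hsub).trans card_image_le

/-- the set of the integers `u d + w (d ^ 2 mod M)` -/
def V (M : ℕ) (u w : ℤ) : Finset ℤ :=
  (range M).image fun d : ℕ => u * d + w * ((d ^ 2 % M : ℕ) : ℤ)

lemma quot_mem {M : ℕ} (hM : 0 < M) {u w : ℤ} {d e : ℕ} (hd : d < M) (he : e < M) :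
    (u * d + w * e) / (M : ℤ) ∈ Finset.Icc (min 0 u + min 0 w) (max 0 u + max 0 w) := by
  have hM' : (0 : ℤ) < M := by exact_mod_cast hM
  have hd' : (d : ℤ) ≤ M := by exact_mod_cast hd.le
  have he' : (e : ℤ) ≤ M := by exact_mod_cast he.le
  have hd0 : (0 : ℤ) ≤ d := Int.natCast_nonneg _
  have he0 : (0 : ℤ) ≤ e := Int.natCast_nonneg _
  have h1 : ∀ (a : ℤ) (x : ℤ), 0 ≤ x → x ≤ M → min 0 a * M ≤ a * x ∧ a * x ≤ max 0 a * M := by
    intro a x hx hx'
    rcases le_total 0 a with h | h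
    · rw [min_eq_left h, max_eq_right h]
      constructor <;> nlinarith
    · rw [min_eq_right h, max_eq_left h]
      constructor <;> nlinarith
  obtain ⟨h2, h3⟩ := h1 u d hd0 hd'
  obtain ⟨h4, h5⟩ := h1 w e he0 he'
  rw [Finset.mem_Icc]
  constructor
  · rw [Int.le_ediv_iff_mul_le hM']
    nlinarith
  · refine Int.le_of_lt_add_one (Int.ediv_lt_of_lt_mul hM' ?_)
    nlinarith

lemma card_V_le {P : Finset ℕ} (hP : ∀ p ∈ P, p.Prime) (u w : ℤ) :
    (V (∏ p ∈ P, p) u w).card ≤ (u.natAbs + w.natAbs + 1) * ∏ p ∈ P, (J u w p).card := by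
  classical
  obtain ⟨M, hM⟩ : ∃ M : ℕ, M = ∏ p ∈ P, p := ⟨_, rfl⟩
  have hM0 : 0 < M := by rw [hM]; exact prod_pos fun p hp => (hP p hp).pos
  rw [← hM]
  have hcard : (Finset.Icc (min 0 u + min 0 w) (max 0 u + max 0 w) ×ˢ
      Fintype.piFinset fun p : P => J u w p).card = (u.natAbs + w.natAbs + 1) *
        ∏ p ∈ P, (J u w p).card := by
    rw [card_product, Fintype.card_piFinset, Int.card_Icc, prod_coe_sort P fun p => (J u w p).card]
    congr 1
    rcases le_total 0 u with h | h <;> rcases le_total 0 w with h' | h' <;>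
      simp only [h, h', min_eq_left, min_eq_right, max_eq_left, max_eq_right] <;> omega
  rw [← hcard]
  apply card_le_card_of_injOn (fun v : ℤ => (v / (M : ℤ), fun p : P => v % ((p : ℕ) : ℤ)))
  · intro v hv
    obtain ⟨d, hd, rfl⟩ := mem_image.1 (mem_coe.1 hv)
    rw [mem_range] at hd
    refine mem_coe.2 (mem_product.2 ⟨quot_mem hM0 hd (Nat.mod_lt _ hM0), ?_⟩)
    rw [Fintype.mem_piFinset]
    rintro ⟨p, hp⟩
    refine mem_image.2 ⟨d % p, mem_range.2 (Nat.mod_lt _ (hP p hp).pos), ?_⟩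
    have hpM : (p : ℤ) ∣ (M : ℤ) := by
      rw [hM]
      exact_mod_cast dvd_prod_of_mem (fun p => p) hp
    have e1 : ((d % p : ℕ) : ℤ) ≡ d [ZMOD p] := by
      push_cast
      exact Int.mod_modEq _ _
    have e2 : ((d ^ 2 % M : ℕ) : ℤ) ≡ (d : ℤ) ^ 2 [ZMOD p] := by
      push_cast
      exact (Int.mod_modEq _ _).of_dvd hpM
    exact ((e1.mul_left u).add ((e1.pow 2).mul_left w)).trans
      ((Int.ModEq.refl _).add (e2.symm.mul_left w))
  · intro v _ v' _ h
    obtain ⟨h1, h2⟩ := Prod.ext_iff.1 h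
    simp only at h1 h2
    have h3 : (M : ℤ) ∣ v - v' := by
      rw [hM]
      push_cast
      apply Finset.prod_dvd_of_coprime
      · intro p hp q hq hpq
        exact Nat.isCoprime_iff_coprime.2 ((Nat.coprime_primes (hP p hp) (hP q hq)).2 hpq)
      · intro p hp
        have h4 := congrFun h2 ⟨p, hp⟩
        have h5 : v ≡ v' [ZMOD (p : ℤ)] := h4
        exact h5.symm.dvd
    have h6 : v % (M : ℤ) = v' % (M : ℤ) := by
      have h7 : v' ≡ v [ZMOD (M : ℤ)] := (Int.modEq_iff_dvd).2 h3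
      exact h7.symm
    rw [← Int.mul_ediv_add_emod v M, ← Int.mul_ediv_add_emod v' M, h1, h6]

/-- the primes at which one gains -/
def good (P : Finset ℕ) (w : ℤ) : Finset ℕ := P.filter fun p => p ≠ 2 ∧ ¬ (p : ℤ) ∣ w

lemma card_V_real {P : Finset ℕ} (hP : ∀ p ∈ P, p.Prime) (u w : ℤ) :
    ((V (∏ p ∈ P, p) u w).card : ℝ) ≤ ((u.natAbs : ℝ) + w.natAbs + 1) *
      ((∏ p ∈ P, (p : ℝ)) * (2 / 3) ^ (good P w).card) := by
  classical
  have h1 : ((V (∏ p ∈ P, p) u w).card : ℝ) ≤ ((u.natAbs : ℝ) + w.natAbs + 1) *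
      ∏ p ∈ P, ((J u w p).card : ℝ) := by
    have := card_V_le hP u w
    exact_mod_cast this
  refine h1.trans (mul_le_mul_of_nonneg_left ?_ (by positivity))
  have h2 : (∏ p ∈ P, (p : ℝ)) * (2 / 3 : ℝ) ^ (good P w).card =
      ∏ p ∈ P, ((p : ℝ) * if p ≠ 2 ∧ ¬ (p : ℤ) ∣ w then (2 / 3 : ℝ) else 1) := by
    rw [prod_mul_distrib, prod_ite, prod_const, prod_const_one, mul_one]
    rfl
  rw [h2]
  refine prod_le_prod (fun _ _ => by positivity) fun p hp => ?_
  split_ifs with h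
  · have h3 := card_J (u := u) (hP p hp) h.1 h.2
    have h4 : (2 : ℝ) * (J u w p).card ≤ p + 1 := by exact_mod_cast h3
    have h5 : (3 : ℝ) ≤ p := by
      have h6 := (hP p hp).two_le
      have h7 : 3 ≤ p := by
        rcases Nat.lt_or_ge 2 p with h8 | h8
        · exact h8
        · exact absurd (le_antisymm h8 h6) h.1
      exact_mod_cast h7
    linarith
  · rw [mul_one]
    exact_mod_cast card_J_le u w p

/-- the number of the primes at which one does not gain -/
lemma card_bad {P : Finset ℕ} (hP : ∀ p ∈ P, p.Prime) {w : ℤ} (hw : w ≠ 0) :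
    ∃ ω : ℕ, 3 ^ ω ≤ w.natAbs ∧ P.card ≤ (good P w).card + ω + 1 := by
  classical
  obtain ⟨B, hB⟩ : ∃ B : Finset ℕ, B = P.filter (fun p : ℕ => p ≠ 2 ∧ ((p : ℕ) : ℤ) ∣ w) := ⟨_, rfl⟩
  refine ⟨B.card, ?_, ?_⟩
  · have h1 : ∏ p ∈ B, p ∣ w.natAbs := by
      apply Finset.prod_primes_dvd
      · intro p hp
        rw [hB, mem_filter] at hp
        exact (hP p hp.1).prime
      · intro p hp
        rw [hB, mem_filter] at hp
        exact Int.natCast_dvd.1 hp.2.2
    have h2 : 3 ^ B.card ≤ ∏ p ∈ B, p := by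
      apply Finset.pow_card_le_prod
      intro p hp
      rw [hB, mem_filter] at hp
      have h6 := (hP p hp.1).two_le
      rcases Nat.lt_or_ge 2 p with h8 | h8
      · exact h8
      · exact absurd (le_antisymm h8 h6) hp.2.1
    exact h2.trans (Nat.le_of_dvd (Int.natAbs_pos.2 hw) h1)
  · have h1 : P ⊆ (good P w ∪ B) ∪ {2} := by
      intro p hp
      rw [mem_union, mem_union, mem_singleton, hB, good, mem_filter, mem_filter]
      by_cases h2 : p = 2
      · exact Or.inr h2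
      · by_cases h3 : (p : ℤ) ∣ w
        · exact Or.inl (Or.inr ⟨hp, h2, h3⟩)
        · exact Or.inl (Or.inl ⟨hp, h2, h3⟩)
    have h2 := card_le_card h1
    have h3 := card_union_le (good P w ∪ B) {2}
    have h4 := card_union_le (good P w) B
    rw [card_singleton] at h3
    omega

end Pool.Agent.H22.GH.Parab
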