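import Mathlib

/-!
# Sums of `log p / (p - 1)` over primes

Explicit elementary bounds of the type of Mertens, used for the heights of slopes.
-/

set_option autoImplicit false

open Finset Nat

namespace Pool.Agent.H22.GH.Primes

lemma log_factorial (n : ℕ) :
    Real.log ((n ! : ℕ) : ℝ) = ∑ p ∈ primesLE n, (padicValNat p (n !) : ℝ) * Real.log p := by
  rw [Real.log_nat_eq_sum_factorization, Finsupp.sum]
  have h1 : (n !).factorization.support ⊆ primesLE n := by
    intro p hp
    rw [support_factorization, mem_primeFactors] at hp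
    rw [mem_primesLE]
    exact ⟨(hp.1.dvd_factorial).1 hp.2.1, hp.1⟩
  rw [← sum_subset h1 (fun p hp hp' => ?_)]
  · refine sum_congr rfl fun p hp => ?_
    rw [Nat.factorization_def _ (prime_of_mem_primesLE (h1 hp))]
  · rw [Finsupp.notMem_support_iff, Nat.factorization_def _ (prime_of_mem_primesLE hp)] at hp'
    rw [hp']
    simp

/-- the lower bound from Legendre's formula -/
lemma lower (y : ℕ) (hy : 1 ≤ y) :
    Real.log y - 1 ≤ ∑ p ∈ primesLE y, Real.log p / ((p : ℝ) - 1) := by
  have hy0 : (0 : ℝ) < y := by exact_mod_cast hy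
  have h1 : (y : ℝ) * Real.log y - y ≤ Real.log ((y ! : ℕ) : ℝ) := by
    have h2 := Real.pow_div_factorial_le_exp (x := (y : ℝ)) hy0.le y
    have hf : (0 : ℝ) < ((y ! : ℕ) : ℝ) := by exact_mod_cast factorial_pos y
    have h3 : Real.log ((y : ℝ) ^ y / ((y ! : ℕ) : ℝ)) ≤ y := by
      have := Real.log_le_log (by positivity) h2
      rwa [Real.log_exp] at this
    rw [Real.log_div (by positivity) hf.ne', Real.log_pow] at h3
    linarith
  have h2 : Real.log ((y ! : ℕ) : ℝ) ≤ y * ∑ p ∈ primesLE y, Real.log p / ((p : ℝ) - 1) := by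
    rw [log_factorial, mul_sum]
    refine sum_le_sum fun p hp => ?_
    have hp' := prime_of_mem_primesLE hp
    have : Fact p.Prime := ⟨hp'⟩
    have h3 : (p - 1) * padicValNat p (y !) ≤ y := by
      rw [sub_one_mul_padicValNat_factorial]
      exact Nat.sub_le _ _
    have h4 : ((p : ℝ) - 1) * (padicValNat p (y !) : ℝ) ≤ y := by
      have h5 : (((p - 1 : ℕ) : ℝ)) = (p : ℝ) - 1 := by
        rw [Nat.cast_sub hp'.one_le]
        simp
      rw [← h5]
      exact_mod_cast h3
    have h6 : (0 : ℝ) < (p : ℝ) - 1 := by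
      have : (1 : ℝ) < p := by exact_mod_cast hp'.one_lt
      linarith
    have h7 : (0 : ℝ) ≤ Real.log p := Real.log_natCast_nonneg p
    rw [mul_div_assoc', le_div_iff₀ h6]
    calc (padicValNat p (y !) : ℝ) * Real.log p * ((p : ℝ) - 1)
        = (((p : ℝ) - 1) * (padicValNat p (y !) : ℝ)) * Real.log p := by ring
      _ ≤ y * Real.log p := mul_le_mul_of_nonneg_right h4 h7
  have h3 : (y : ℝ) * (Real.log y - 1) ≤
      y * ∑ p ∈ primesLE y, Real.log p / ((p : ℝ) - 1) := by linarith
  exact le_of_mul_le_mul_left h3 hy0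

lemma theta_le (z : ℕ) : ∑ p ∈ primesLE z, Real.log p ≤ Real.log 4 * z := by
  have h1 := Chebyshev.theta_le_log4_mul_x (x := (z : ℝ)) (by positivity)
  rwa [Chebyshev.theta_eq_sum_primesLE_log] at h1

/-- the upper bound of Mertens -/
lemma upper (z : ℕ) (hz : 1 ≤ z) :
    ∑ p ∈ primesLE z, Real.log p / (p : ℝ) ≤ Real.log z + Real.log 4 := by
  have hz0 : (0 : ℝ) < z := by exact_mod_cast hz
  have h1 : Real.log ((z ! : ℕ) : ℝ) ≤ z * Real.log z := by
    rw [← Real.log_pow]
    refine Real.log_le_log (by exact_mod_cast factorial_pos z) ?_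
    exact_mod_cast factorial_le_pow z
  have h2 : (z : ℝ) * ∑ p ∈ primesLE z, Real.log p / (p : ℝ) - ∑ p ∈ primesLE z, Real.log p ≤
      Real.log ((z ! : ℕ) : ℝ) := by
    rw [log_factorial, mul_sum, ← sum_sub_distrib]
    refine sum_le_sum fun p hp => ?_
    have hp' := prime_of_mem_primesLE hp
    have : Fact p.Prime := ⟨hp'⟩
    have hpz := le_of_mem_primesLE hp
    have h3 : z / p ≤ padicValNat p (z !) := by
      rw [padicValNat_factorial (b := Nat.log p z + 1) (Nat.lt_succ_self _)]
      have h4 : 1 ∈ Finset.Ico 1 (Nat.log p z + 1) := by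
        rw [Finset.mem_Ico]
        have := Nat.log_pos hp'.one_lt hpz
        omega
      have h5 := Finset.single_le_sum (f := fun i => z / p ^ i) (fun i _ => Nat.zero_le _) h4
      simpa using h5
    have hp0 : (0 : ℝ) < p := by exact_mod_cast hp'.pos
    have h6 : (z : ℝ) / p - 1 ≤ (padicValNat p (z !) : ℝ) := by
      have h7 : z < p * (z / p + 1) := by
        have := Nat.lt_mul_div_succ z hp'.pos
        exact this
      have h8 : (z : ℝ) < p * (((z / p : ℕ) : ℝ) + 1) := by exact_mod_cast h7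
      have h9 : (z : ℝ) / p < ((z / p : ℕ) : ℝ) + 1 := by
        rw [div_lt_iff₀ hp0]
        linarith
      have h10 : ((z / p : ℕ) : ℝ) ≤ (padicValNat p (z !) : ℝ) := by exact_mod_cast h3
      linarith
    have h7 : (0 : ℝ) ≤ Real.log p := Real.log_natCast_nonneg p
    calc (z : ℝ) * (Real.log p / p) - Real.log p = ((z : ℝ) / p - 1) * Real.log p := by ring
      _ ≤ (padicValNat p (z !) : ℝ) * Real.log p := mul_le_mul_of_nonneg_right h6 h7
  have h3 := theta_le z
  have h4 : (z : ℝ) * ∑ p ∈ primesLE z, Real.log p / (p : ℝ) ≤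
      z * (Real.log z + Real.log 4) := by linarith
  exact le_of_mul_le_mul_left h4 hz0

/-- a telescoping sum -/
lemma tele (n : ℕ) (hn : 1 ≤ n) :
    ∑ j ∈ Finset.Ico 2 (n + 1), Real.log j / ((j : ℝ) * (j - 1)) ≤
      1 + Real.log 2 - (Real.log (n + 1) + 1) / n := by
  induction n, hn using Nat.le_induction with
  | base =>
    simp
    norm_num
    linarith
  | succ n hn ih =>
    rw [Finset.sum_Ico_succ_top (by omega)]
    have hn0 : (0 : ℝ) < n := by exact_mod_cast hn
    push_cast
    have key : Real.log ((n : ℝ) + 1) / (((n : ℝ) + 1) * ((n : ℝ) + 1 - 1)) ≤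
        (Real.log (n + 1) + 1) / n - (Real.log ((n : ℝ) + 1 + 1) + 1) / ((n : ℝ) + 1) := by
      have h1 : Real.log ((n : ℝ) + 1 + 1) ≤ Real.log ((n : ℝ) + 1) + 1 / ((n : ℝ) + 1) := by
        have h2 : Real.log (((n : ℝ) + 1 + 1) / ((n : ℝ) + 1)) ≤
            ((n : ℝ) + 1 + 1) / ((n : ℝ) + 1) - 1 := Real.log_le_sub_one_of_pos (by positivity)
        rw [Real.log_div (by positivity) (by positivity)] at h2
        have h3 : ((n : ℝ) + 1 + 1) / ((n : ℝ) + 1) - 1 = 1 / ((n : ℝ) + 1) := by
          field_simp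
          ring
        linarith
      have h4 : (n : ℝ) + 1 - 1 = n := by ring
      rw [h4, div_sub_div _ _ hn0.ne' (by positivity), div_le_div_iff₀ (by positivity)
        (by positivity)]
      have h5 : (n : ℝ) * Real.log ((n : ℝ) + 1 + 1) ≤ n * Real.log ((n : ℝ) + 1) + 1 := by
        have h6 := mul_le_mul_of_nonneg_left h1 hn0.le
        have h7 : (n : ℝ) * (1 / ((n : ℝ) + 1)) ≤ 1 := by
          rw [mul_one_div, div_le_one (by positivity)]
          linarith
        nlinarith
      have h8 : (0 : ℝ) ≤ n * ((n : ℝ) + 1) := by positivity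
      nlinarith [mul_le_mul_of_nonneg_left h5 h8]
    linarith

/-- the upper bound for the sum of `log p / (p - 1)` -/
lemma upper' (z : ℕ) (hz : 1 ≤ z) :
    ∑ p ∈ primesLE z, Real.log p / ((p : ℝ) - 1) ≤ Real.log z + (1 + 3 * Real.log 2) := by
  have h1 := upper z hz
  have h2 := tele z hz
  have h3 : ∑ p ∈ primesLE z, Real.log p / ((p : ℝ) * (p - 1)) ≤
      ∑ j ∈ Finset.Ico 2 (z + 1), Real.log j / ((j : ℝ) * (j - 1)) := by
    refine sum_le_sum_of_subset_of_nonneg ?_ ?_
    · intro p hp
      rw [Finset.mem_Ico]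
      exact ⟨two_le_of_mem_primesLE hp, Nat.lt_succ_of_le (le_of_mem_primesLE hp)⟩
    · intro j hj _
      rw [Finset.mem_Ico] at hj
      have h4 : (2 : ℝ) ≤ j := by exact_mod_cast hj.1
      exact div_nonneg (Real.log_natCast_nonneg j) (mul_nonneg (by linarith) (by linarith))
  have h4 : ∑ p ∈ primesLE z, Real.log p / ((p : ℝ) - 1) =
      ∑ p ∈ primesLE z, Real.log p / (p : ℝ) +
        ∑ p ∈ primesLE z, Real.log p / ((p : ℝ) * (p - 1)) := by
    rw [← sum_add_distrib]
    refine sum_congr rfl fun p hp => ?_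
    have h5 : (2 : ℝ) ≤ p := by exact_mod_cast two_le_of_mem_primesLE hp
    have h6 : (p : ℝ) ≠ 0 := by linarith
    have h7 : (p : ℝ) - 1 ≠ 0 := by linarith
    field_simp
    ring
  have h5 : (0 : ℝ) ≤ (Real.log (z + 1) + 1) / z := by
    have : (0 : ℝ) ≤ Real.log (z + 1) := Real.log_nonneg (by
      have : (0 : ℝ) ≤ z := by positivity
      linarith)
    positivity
  have h6 : Real.log 4 = 2 * Real.log 2 := by
    rw [show (4 : ℝ) = 2 ^ 2 by norm_num, Real.log_pow]
    norm_num
  rw [h4]
  linarith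

/-- The prime divisors of `D`. -/
lemma divisors (y z D : ℕ) (hz : 1 ≤ z) (hD : 1 ≤ D) :
    ∑ p ∈ (primesLE y).filter (fun p => p ∣ D), Real.log p / ((p : ℝ) - 1) ≤
      Real.log z + (1 + 3 * Real.log 2) + Real.log D / z := by
  have hz0 : (0 : ℝ) < z := by exact_mod_cast hz
  rw [← sum_filter_add_sum_filter_not _ (fun p => p ≤ z)]
  refine add_le_add ?_ ?_
  · refine le_trans (sum_le_sum_of_subset_of_nonneg ?_ ?_) (upper' z hz)
    · intro p hp
      rw [mem_filter, mem_filter] at hp
      exact mem_primesLE.2 ⟨hp.2, prime_of_mem_primesLE hp.1.1⟩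
    · intro p hp _
      have h5 : (2 : ℝ) ≤ p := by exact_mod_cast two_le_of_mem_primesLE hp
      exact div_nonneg (Real.log_natCast_nonneg p) (by linarith)
  · have h1 : ∑ p ∈ D.primeFactors, Real.log (p : ℝ) ≤ Real.log D := by
      rw [← Real.log_prod (fun p hp => by
        have := (mem_primeFactors.1 hp).1.pos
        positivity)]
      refine Real.log_le_log (prod_pos fun p hp => ?_) ?_
      · have := (mem_primeFactors.1 hp).1.pos
        exact_mod_cast this
      · have := Nat.le_of_dvd hD (prod_primeFactors_dvd D)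
        rw [← Nat.cast_prod]
        exact_mod_cast this
    calc ∑ p ∈ ((primesLE y).filter (fun p => p ∣ D)).filter (fun p => ¬ p ≤ z),
          Real.log p / ((p : ℝ) - 1)
        ≤ ∑ p ∈ ((primesLE y).filter (fun p => p ∣ D)).filter (fun p => ¬ p ≤ z),
          Real.log p / (z : ℝ) := by
          refine sum_le_sum fun p hp => ?_
          rw [mem_filter] at hp
          have h2 : z + 1 ≤ p := by omega
          have h3 : (z : ℝ) + 1 ≤ p := by exact_mod_cast h2
          exact div_le_div_of_nonneg_left (Real.log_natCast_nonneg p) hz0 (by linarith)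
      _ ≤ ∑ p ∈ D.primeFactors, Real.log p / (z : ℝ) := by
          refine sum_le_sum_of_subset_of_nonneg ?_ ?_
          · intro p hp
            rw [mem_filter, mem_filter] at hp
            exact mem_primeFactors.2 ⟨prime_of_mem_primesLE hp.1.1, hp.1.2, by omega⟩
          · intro p _ _
            exact div_nonneg (Real.log_natCast_nonneg p) hz0.le
      _ ≤ Real.log D / z := by
          rw [← sum_div]
          exact div_le_div_of_nonneg_right h1 hz0.le

/-- The combined bound: `D` has few small prime divisors. -/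
lemma gain {N m y D : ℕ} (hN : 3 ≤ N) (hm : 1 ≤ m) (hD : 1 ≤ D) (hDN : D ≤ N ^ 2)
    (hy : 1500 * Real.log N * m ≤ y) :
    Real.log m + Real.log (5 / 4) / 2 + 1 ≤
      ∑ p ∈ (primesLE y).filter (fun p => ¬ p ∣ D), Real.log p / ((p : ℝ) - 1) := by
  set L : ℝ := Real.log N with hL
  have hN3 : (3 : ℝ) ≤ N := by exact_mod_cast hN
  have hm1 : (1 : ℝ) ≤ m := by exact_mod_cast hm
  have hL1 : 1 ≤ L := by
    rw [hL, Real.le_log_iff_exp_le (by linarith)]
    have := Real.exp_one_lt_d9
    linarith
  have hy0 : (0 : ℝ) < y := lt_of_lt_of_le (by positivity) hy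
  have hy1 : 1 ≤ y := by exact_mod_cast hy0
  set z : ℕ := ⌈2 * L⌉₊ with hz
  have hz1 : 1 ≤ z := Nat.one_le_iff_ne_zero.2 (by
    rw [hz]
    exact (Nat.ceil_pos.2 (by linarith)).ne')
  have hz2 : 2 * L ≤ z := Nat.le_ceil _
  have hz3 : (z : ℝ) ≤ 3 * L := by
    have := (Nat.ceil_lt_add_one (by linarith : 0 ≤ 2 * L)).le
    linarith
  have hz0 : (0 : ℝ) < z := by linarith
  have h1 := lower y hy1
  have h2 := divisors y z D hz1 hD
  have h3 : Real.log D / z ≤ 1 := by
    rw [div_le_one hz0]
    have h4 : Real.log (D : ℝ) ≤ Real.log ((N : ℝ) ^ 2) := by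
      refine Real.log_le_log (by exact_mod_cast hD) ?_
      exact_mod_cast hDN
    rw [Real.log_pow] at h4
    push_cast at h4
    linarith
  have h4 : Real.log z ≤ Real.log (3 * L) := Real.log_le_log hz0 hz3
  have h5 : Real.log (1500 * L * m) ≤ Real.log y := Real.log_le_log (by positivity) hy
  have h6 : Real.log (1500 * L * m) = Real.log (3 * L) + Real.log m + Real.log 500 := by
    rw [← Real.log_mul (by positivity) (by positivity), ← Real.log_mul (by positivity)
      (by norm_num)]
    congr 1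
    ring
  have h7 : 4 + 3 * Real.log 2 + Real.log (5 / 4) / 2 ≤ Real.log 500 - 0 := by
    have h8 : Real.exp 1 < 2.7182818286 := Real.exp_one_lt_d9
    have h9 : (8 : ℝ) ≤ 2 * Real.log 500 - 6 * Real.log 2 - Real.log (5 / 4) := by
      have h10 : 2 * Real.log 500 - 6 * Real.log 2 - Real.log (5 / 4) =
          Real.log (500 ^ 2 / 2 ^ 6 / (5 / 4)) := by
        have e1 : Real.log (500 ^ 2 / 2 ^ 6 / (5 / 4)) =
            Real.log (500 ^ 2 / 2 ^ 6) - Real.log (5 / 4) :=
          Real.log_div (by norm_num) (by norm_num)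
        have e2 : Real.log ((500 : ℝ) ^ 2 / 2 ^ 6) = Real.log (500 ^ 2) - Real.log (2 ^ 6) :=
          Real.log_div (by norm_num) (by norm_num)
        have e3 : Real.log ((500 : ℝ) ^ 2) = 2 * Real.log 500 := by
          rw [Real.log_pow]
          norm_num
        have e4 : Real.log ((2 : ℝ) ^ 6) = 6 * Real.log 2 := by
          rw [Real.log_pow]
          norm_num
        rw [e1, e2, e3, e4]
      rw [h10, Real.le_log_iff_exp_le (by norm_num)]
      have h11 : Real.exp 8 = Real.exp 1 ^ 8 := by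
        rw [← Real.exp_nat_mul]
        norm_num
      rw [h11]
      calc Real.exp 1 ^ 8 ≤ 2.7182818286 ^ 8 := by gcongr
        _ ≤ _ := by norm_num
    linarith
  have h8 := sum_filter_add_sum_filter_not (primesLE y) (fun p => p ∣ D)
    (fun p : ℕ => Real.log (p : ℝ) / ((p : ℝ) - 1))
  linarith

end Pool.Agent.H22.GH.Primes
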