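import Pool.Agent.H22.GH.Parab
import Pool.Agent.H22.GH.Primes
import Pool.Agent.H22.GH.Main

/-!
# All slopes of bounded height

If all the slopes in `S` have height at most `H`, then every sums-differences exponent of `S` is at
least `1 + 1 / (24 log (7 log (3 H + 1)))`.
-/

set_option autoImplicit false

namespace Pool.Agent.H22.GH.Parab

open Finset
open Pool.Agent.Results.MP_169869_co.GeometricMeans (MaxBound proj)
open Pool.Agent.Results.MP_169869_co.FibreMultiplicity.Aux4 (cu cv)

lemma num1 {s : ℝ} (hs : 9.7 ≤ s) :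
    (1.62188 + 0.391172 * s) * (s / 8 + 1.07945) ≤ 0.1655 * (s ^ 2 - 1) := by
  have h : 0 ≤ (s - 9.7) * (s - 9.7) := mul_self_nonneg _
  norm_num at h hs ⊢
  linarith

lemma num2 {x a : ℝ} (hx : 0.6931471803 < x) (ha : 0.40546 ≤ a) : 0.1655 ≤ x * (a - 1 / 6) := by
  have h1 : 0.23879 ≤ a - 1 / 6 := by
    norm_num at ha ⊢
    linarith
  have h2 : (0.6931471803 : ℝ) * 0.23879 ≤ x * (a - 1 / 6) :=
    mul_le_mul hx.le h1 (by norm_num) (by norm_num at hx; linarith)
  norm_num at h2 ⊢
  linarith

lemma num3 {s y : ℝ} (hs : 9.7 ≤ s) (h : s ^ 2 = y + 1) : 93 ≤ y := by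
  have h1 : 0 ≤ (s - 9.7) * (s + 9.7) := mul_nonneg (by linarith) (by norm_num at hs; linarith)
  norm_num at h1 ⊢
  linarith

lemma analytic {H : ℕ} (hH : 1 ≤ H) :
    ∃ y : ℕ, 2 ≤ y ∧ 2 < 24 * Real.log (7 * Real.log (3 * H + 1)) ∧
      ∀ g ω : ℕ, (3 : ℝ) ^ ω ≤ 3 * H + 1 → (Nat.primesLE y).card ≤ g + ω + 1 →
      ∑ p ∈ Nat.primesLE y, Real.log p ≤ 24 * Real.log (7 * Real.log (3 * H + 1)) *
        (g * (Real.log 3 - Real.log 2) - Real.log (3 * H + 1)) := by
  obtain ⟨L, hL⟩ : ∃ L : ℝ, L = Real.log (3 * H + 1) := ⟨_, rfl⟩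
  rw [← hL]
  have hH1 : (1 : ℝ) ≤ H := by exact_mod_cast hH
  have a2 := Real.log_two_gt_d9
  have b2 := Real.log_two_lt_d9
  have a3 := Real.log_three_gt_d9
  have b3 := Real.log_three_lt_d9
  have h4 : Real.log 4 = 2 * Real.log 2 := by
    rw [show (4 : ℝ) = 2 ^ 2 by norm_num, Real.log_pow]
    norm_num
  have hL4 : Real.log 4 ≤ L := by
    rw [hL]
    exact Real.log_le_log (by norm_num) (by linarith)
  have hL1 : 1.386 ≤ L := by
    rw [h4] at hL4
    norm_num at a2 ⊢
    linarith
  obtain ⟨y, hy⟩ : ∃ y : ℕ, y = ⌊49 * L ^ 2⌋₊ := ⟨_, rfl⟩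
  have hy1 : (y : ℝ) ≤ 49 * L ^ 2 := by
    rw [hy]
    exact Nat.floor_le (by positivity)
  have hy2 : 49 * L ^ 2 < y + 1 := by
    rw [hy]
    exact Nat.lt_floor_add_one _
  obtain ⟨s, hs⟩ : ∃ s : ℝ, s = Real.sqrt (y + 1) := ⟨_, rfl⟩
  have hs2 : s ^ 2 = y + 1 := by
    rw [hs]
    exact Real.sq_sqrt (by positivity)
  have hsL : 7 * L ≤ s := by
    rw [hs]
    apply Real.le_sqrt_of_sq_le
    nlinarith
  have hs9 : 9.7 ≤ s := by
    norm_num at hL1 ⊢
    linarith
  have hyr : 93 ≤ (y : ℝ) := num3 hs9 hs2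
  have hy3 : 93 ≤ y := by exact_mod_cast hyr
  have hlog9 : 2 < 24 * Real.log (7 * L) := by
    have h1 : Real.log 4 ≤ Real.log (7 * L) := Real.log_le_log (by norm_num) (by
      norm_num at hL1
      linarith)
    norm_num at a2
    linarith
  refine ⟨y, by omega, hlog9, fun g ω hω hg => ?_⟩
  -- the number of primes
  have hly : 0 < Real.log y := Real.log_pos (by linarith)
  have hn : (y : ℝ) * Real.log 2 - Real.log (y + 1) ≤ (Nat.primesLE y).card * Real.log y := by
    have h1 := Chebyshev.pi_ge y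
    rw [div_le_iff₀ hly] at h1
    have h2 : (Nat.primesLE y).card = Nat.primeCounting y := by
      rw [Nat.primeCounting, Nat.primeCounting', Nat.count_eq_card_filter_range]
      rfl
    rw [h2]
    exact h1
  have hgn : ((Nat.primesLE y).card : ℝ) ≤ g + ω + 1 := by exact_mod_cast hg
  have hωL : ω * Real.log 3 ≤ L := by
    rw [hL, ← Real.log_pow]
    exact Real.log_le_log (by positivity) hω
  obtain ⟨N, hN⟩ : ∃ N : ℝ, N = ((Nat.primesLE y).card : ℝ) := ⟨_, rfl⟩
  rw [← hN] at hn hgn
  clear hg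
  -- the logarithms
  have hls : Real.log s ≤ s / 8 + (3 * Real.log 2 - 1) := by
    have h1 := Real.log_le_sub_one_of_pos (x := s / 8) (by
      norm_num at hs9
      linarith)
    rw [Real.log_div (by
      norm_num at hs9
      linarith) (by norm_num)] at h1
    have h2 : Real.log 8 = 3 * Real.log 2 := by
      rw [show (8 : ℝ) = 2 ^ 3 by norm_num, Real.log_pow]
      norm_num
    linarith
  have hl1 : Real.log (y + 1) = 2 * Real.log s := by
    rw [← hs2, Real.log_pow]
    norm_num
  have hl2 : Real.log y ≤ 2 * Real.log s := by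
    rw [← hl1]
    exact Real.log_le_log (by linarith) (by linarith)
  have hl3 : Real.log y ≤ 2 * Real.log (7 * L) := by
    have h1 : 2 * Real.log (7 * L) = Real.log (49 * L ^ 2) := by
      rw [show 49 * L ^ 2 = (7 * L) ^ 2 by ring, Real.log_pow]
      norm_num
    rw [h1]
    exact Real.log_le_log (by linarith) hy1
  have hs0 : 0 < Real.log s := Real.log_pos (by
    norm_num at hs9
    linarith)
  obtain ⟨T, hT⟩ : ∃ T : ℝ, T = g * (Real.log 3 - Real.log 2) - L := ⟨_, rfl⟩
  rw [← hT]
  -- the main inequality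
  have key : y * Real.log 2 / 6 ≤ T * Real.log y := by
    obtain ⟨a, ha⟩ : ∃ a : ℝ, a = Real.log 3 - Real.log 2 := ⟨_, rfl⟩
    have ha1 : 0.40546 ≤ a := by
      norm_num at a3 b2 ⊢
      linarith
    have ha2 : a ≤ 0.40547 := by
      norm_num at b3 a2 ⊢
      linarith
    have haω : a * ω ≤ 0.3691 * L := by
      have h0 : (0 : ℝ) ≤ ω := Nat.cast_nonneg _
      have h1 : a * ω ≤ 0.3691 * (ω * Real.log 3) := by
        have h2 : a ≤ 0.3691 * Real.log 3 := by
          norm_num at a3 ha2 ⊢
          linarith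
        nlinarith
      norm_num at h1 ⊢
      linarith
    have hT1 : a * (N - 1) - 1.3691 * L ≤ T := by
      rw [hT, ← ha]
      have h1 : a * N ≤ a * (g + ω + 1) :=
        mul_le_mul_of_nonneg_left hgn (by norm_num at ha1; linarith)
      have h2 : a * (g + ω + 1) = g * a + a * ω + a := by ring
      have h3 : a * (N - 1) = a * N - a := by ring
      rw [h3]
      norm_num at haω ⊢
      linarith
    have hT2 : (a * (N - 1) - 1.3691 * L) * Real.log y ≤ T * Real.log y :=
      mul_le_mul_of_nonneg_right hT1 hly.le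
    refine le_trans ?_ hT2
    have h1 : a * (y * Real.log 2 - Real.log (y + 1)) ≤
        a * (N * Real.log y) :=
      mul_le_mul_of_nonneg_left hn (by norm_num at ha1; linarith)
    -- it suffices to bound the error terms
    have h2 : a * Real.log (y + 1) + a * Real.log y + 1.3691 * L * Real.log y ≤
        (1.62188 + 0.391172 * s) * Real.log s := by
      have h3 : a * Real.log (y + 1) ≤ 0.40547 * (2 * Real.log s) := by
        rw [hl1]
        exact mul_le_mul_of_nonneg_right ha2 (by linarith)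
      have h4 : a * Real.log y ≤ 0.40547 * (2 * Real.log s) :=
        mul_le_mul ha2 hl2 hly.le (by norm_num)
      have h5 : 1.3691 * L * Real.log y ≤ 1.3691 * (s / 7) * (2 * Real.log s) := by
        apply mul_le_mul _ hl2 hly.le (by
          norm_num at hs9 ⊢
          linarith)
        norm_num
        linarith
      have h6 : 0 ≤ s * Real.log s := mul_nonneg (by
        norm_num at hs9
        linarith) hs0.le
      have h7 : (1.62188 + 0.391172 * s) * Real.log s =
        1.62188 * Real.log s + 0.391172 * (s * Real.log s) := by ring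
      have h8 : 1.3691 * (s / 7) * (2 * Real.log s) = 2.7382 / 7 * (s * Real.log s) := by ring
      rw [h7]
      rw [h8] at h5
      norm_num at h3 h4 h5 ⊢
      linarith
    have h3 : (1.62188 + 0.391172 * s) * Real.log s ≤
        (1.62188 + 0.391172 * s) * (s / 8 + 1.07945) := by
      apply mul_le_mul_of_nonneg_left _ (by
        norm_num at hs9 ⊢
        linarith)
      norm_num at b2 ⊢
      linarith
    have h4 : (1.62188 + 0.391172 * s) * (s / 8 + 1.07945) ≤ 0.1655 * (s ^ 2 - 1) := num1 hs9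
    have h5 : 0.1655 * (s ^ 2 - 1) ≤ y * Real.log 2 * (a - 1 / 6) := by
      rw [hs2]
      have h6 : 0.1655 ≤ Real.log 2 * (a - 1 / 6) := num2 a2 ha1
      have h7 : (y : ℝ) * 0.1655 ≤ y * (Real.log 2 * (a - 1 / 6)) :=
        mul_le_mul_of_nonneg_left h6 (by linarith)
      linarith
    have e1 : (a * (N - 1) - 1.3691 * L) * Real.log y =
        a * (N * Real.log y) - a * Real.log y - 1.3691 * L * Real.log y := by ring
    have e2 : a * (y * Real.log 2 - Real.log (y + 1)) =
        a * y * Real.log 2 - a * Real.log (y + 1) := by ring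
    have e3 : y * Real.log 2 * (a - 1 / 6) = a * y * Real.log 2 - y * Real.log 2 / 6 := by ring
    rw [e1]
    rw [e2] at h1
    rw [e3] at h5
    linarith
  have hT0 : 0 ≤ T := by
    by_contra hcon
    push Not at hcon
    have h1 : T * Real.log y < 0 := mul_neg_of_neg_of_pos hcon hly
    have h2 : 0 ≤ y * Real.log 2 / 6 := by positivity
    linarith
  have h1 := Pool.Agent.H22.GH.Primes.theta_le y
  refine h1.trans ?_
  rw [h4]
  have h2 : 12 * (T * Real.log y) ≤ 12 * (T * (2 * Real.log (7 * L))) := by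
    have := mul_le_mul_of_nonneg_left hl3 hT0
    linarith
  linarith

/-- The set of the points with `x - y = d` and `y = d ^ 2 mod M`. -/
def set (M : ℕ) : Finset (ℤ × ℤ) :=
  (range M).image fun d : ℕ => ((d : ℤ) + ((d ^ 2 % M : ℕ) : ℤ), ((d ^ 2 % M : ℕ) : ℤ))

lemma card_diff (M : ℕ) : (proj (some (-1)) (set M)).card = M := by
  unfold proj set
  rw [image_image, card_image_of_injOn, card_range]
  intro d _ d' _ h
  simp only [Function.comp_apply] at h
  push_cast at h
  have h1 : (d : ℚ) = d' := by linarith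
  exact_mod_cast h1

lemma card_proj_le (M : ℕ) (r : Option ℚ) :
    (proj r (set M)).card ≤ (V M (cu r) (cu r + cv r)).card := by
  have h1 : ∀ k : ℕ, (proj r (set M)) ⊆ (V M (cu r) (cu r + cv r)).image
      (fun z : ℤ => (z : ℚ) / (match r with
        | none => (1 : ℚ)
        | some t => (t.den : ℚ))) := by
    intro _ z hz
    unfold proj set at hz
    rw [image_image] at hz
    obtain ⟨d, hd, rfl⟩ := mem_image.1 hz
    refine mem_image.2 ⟨_, mem_image_of_mem _ hd, ?_⟩
    cases r with
    | none => simp [cu, cv]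
    | some t =>
      have h2 : (t.den : ℚ) ≠ 0 := by exact_mod_cast t.den_nz
      have h3 : (t.num : ℚ) = t * t.den := by
        exact (Rat.mul_den_eq_num t).symm
      simp only [cu, cv, Function.comp_apply]
      push_cast
      rw [h3]
      field_simp
      ring
  exact (card_le_card (h1 0)).trans card_image_le

/-- **All slopes of height at most `H`.** -/
theorem exponent {S : Finset (Option ℚ)} (hS : some (-1) ∉ S) {H : ℕ} (hH : 1 ≤ H)
    (hh : ∀ t : ℚ, some t ∈ S → t.den ≤ H ∧ |t.num| ≤ H) {c : ℝ} (hc : 0 ≤ c)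
    (h : MaxBound S c) :
    1 + 1 / (24 * Real.log (7 * Real.log (3 * H + 1))) ≤ c := by
  classical
  obtain ⟨y, hy, hlam, hana⟩ := analytic hH
  obtain ⟨lam, hl⟩ : ∃ lam : ℝ, lam = 24 * Real.log (7 * Real.log (3 * H + 1)) := ⟨_, rfl⟩
  rw [← hl] at hlam hana ⊢
  obtain ⟨M, hM⟩ : ∃ M : ℕ, M = ∏ p ∈ Nat.primesLE y, p := ⟨_, rfl⟩
  have hP : ∀ p ∈ Nat.primesLE y, p.Prime := fun p hp => Nat.prime_of_mem_primesLE hp
  have hM0 : 0 < M := by rw [hM]; exact prod_pos fun p hp => (hP p hp).pos
  have hlogM : Real.log M = ∑ p ∈ Nat.primesLE y, Real.log p := by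
    rw [hM]
    push_cast
    exact Real.log_prod fun p hp => by exact_mod_cast (hP p hp).ne_zero
  have hlogM0 : 0 < Real.log M := by
    apply Real.log_pos
    have h2 : 2 ∈ Nat.primesLE y := Nat.mem_primesLE.2 ⟨hy, Nat.prime_two⟩
    have h3 : 2 ∣ M := by rw [hM]; exact dvd_prod_of_mem _ h2
    have h4 : 2 ≤ M := Nat.le_of_dvd hM0 h3
    exact_mod_cast h4
  have hne : (set M).Nonempty := by
    refine Finset.Nonempty.image ?_ _
    exact ⟨0, mem_range.2 hM0⟩
  obtain ⟨r, hr, hle⟩ := h (set M) hne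
  rw [card_diff] at hle
  -- the coefficients
  have hw0 : cu r + cv r ≠ 0 := by
    cases r with
    | none => simp [cu, cv]
    | some t =>
      simp only [cu, cv]
      intro h1
      apply hS
      have h2 : t = -1 := by
        have h3 : (t.num : ℚ) = -t.den := by
          have : t.num = -(t.den : ℤ) := by linarith
          exact_mod_cast this
        have h4 : (t.den : ℚ) ≠ 0 := by exact_mod_cast t.den_nz
        rw [← Rat.num_div_den t, h3]
        field_simp
      rw [← h2]
      exact hr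
  have hb : (cu r).natAbs ≤ H ∧ (cu r + cv r).natAbs ≤ 2 * H := by
    cases r with
    | none =>
      simp only [cu, cv]
      omega
    | some t =>
      obtain ⟨h1, h2⟩ := hh t hr
      simp only [cu, cv]
      have h3 := abs_le.1 h2
      omega
  obtain ⟨ω, hω, hcard⟩ := card_bad hP hw0
  have hω' : (3 : ℝ) ^ ω ≤ 3 * H + 1 := by
    have h1 : 3 ^ ω ≤ 3 * H + 1 := by omega
    exact_mod_cast h1
  have hT := hana _ ω hω' hcard
  rw [← hlogM] at hT
  -- the size of the projection
  have hV := card_V_real hP (cu r) (cu r + cv r)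
  rw [← hM] at hV
  have hMr : (∏ p ∈ Nat.primesLE y, (p : ℝ)) = M := by
    rw [hM]
    push_cast
    rfl
  rw [hMr] at hV
  have hV2 : ((proj r (set M)).card : ℝ) ≤
      (3 * H + 1) * (M * (2 / 3) ^ (good (Nat.primesLE y) (cu r + cv r)).card) := by
    have h1 : ((proj r (set M)).card : ℝ) ≤ (V M (cu r) (cu r + cv r)).card := by
      exact_mod_cast card_proj_le M r
    refine (h1.trans hV).trans (mul_le_mul_of_nonneg_right ?_ (by positivity))
    have h2 : (cu r).natAbs + (cu r + cv r).natAbs + 1 ≤ 3 * H + 1 := by omega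
    exact_mod_cast h2
  have hc1 : (1 : ℝ) ≤ (proj r (set M)).card := by
    have h1 : 0 < (proj r (set M)).card := card_pos.2 (hne.image _)
    exact_mod_cast h1
  have hlog : Real.log (proj r (set M)).card ≤ Real.log M -
      ((good (Nat.primesLE y) (cu r + cv r)).card * (Real.log 3 - Real.log 2) -
        Real.log (3 * H + 1)) := by
    have hMp : (0 : ℝ) < M := by exact_mod_cast hM0
    have h1 := Real.log_le_log (by linarith) hV2
    rw [Real.log_mul (by positivity) (by positivity), Real.log_mul (by positivity) (by positivity),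
      Real.log_pow, Real.log_div (by norm_num) (by norm_num)] at h1
    linarith
  obtain ⟨T, hTd⟩ : ∃ T : ℝ, T = (good (Nat.primesLE y) (cu r + cv r)).card *
    (Real.log 3 - Real.log 2) - Real.log (3 * H + 1) := ⟨_, rfl⟩
  rw [← hTd] at hlog hT
  have h1 : Real.log M ≤ c * (Real.log M - T) := by
    have h2 := Real.log_le_log (by exact_mod_cast hM0) hle
    rw [Real.log_rpow (by linarith)] at h2
    exact h2.trans (mul_le_mul_of_nonneg_left hlog hc)
  have hlam0 : 0 < lam := by linarith
  have h2 : Real.log M / lam ≤ T := by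
    rw [div_le_iff₀ hlam0]
    linarith
  have h3 : Real.log M ≤ c * (Real.log M - Real.log M / lam) :=
    h1.trans (mul_le_mul_of_nonneg_left (by linarith) hc)
  have h4 : Real.log M * 1 ≤ Real.log M * (c * (1 - 1 / lam)) := by
    calc Real.log M * 1 ≤ c * (Real.log M - Real.log M / lam) := by rw [mul_one]; exact h3
      _ = _ := by ring
  have h5 : 1 ≤ c * (1 - 1 / lam) := le_of_mul_le_mul_left h4 hlogM0
  have h6 : 1 / lam ≤ 1 / 2 := one_div_le_one_div_of_le (by norm_num) hlam.le
  have h7 : 0 < 1 / lam := by positivity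
  nlinarith

end Pool.Agent.H22.GH.Parab
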