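import Pool.Agent.H22.ParabAsym

/-!
# Slopes of bounded height: the asymptotic form
-/

set_option autoImplicit false

namespace Pool.Agent.H22.ParabAsymGH

open Finset Filter Topology Pool.Agent.H22.GH Pool.Agent.H22.GH.Parab Pool.Agent.H22.ParabAsym
open Pool.Agent.Results.MP_169869_co.GeometricMeans (MaxBound proj)
open Pool.Agent.Results.MP_169869_co.FibreMultiplicity.Aux4 (cu cv)

/-- **All slopes of height at most `H`, for large `H`.** -/
theorem exponent {ε : ℝ} (hε : 0 < ε) :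
    ∃ H₀ : ℕ, ∀ H : ℕ, H₀ ≤ H → 0 < Real.log (Real.log H) ∧
      ∀ (S : Finset (Option ℚ)) (c : ℝ), some (-1) ∉ S →
        (∀ t : ℚ, some t ∈ S → t.den ≤ H ∧ |t.num| ≤ H) → 0 ≤ c → MaxBound S c →
        1 + (Real.log 2 - ε) / Real.log (Real.log H) ≤ c := by
  classical
  have a2 := Real.log_two_gt_d9
  have b2 := Real.log_two_lt_d9
  obtain ⟨e, he⟩ : ∃ e : ℝ, e = min ε (1 / 10) := ⟨_, rfl⟩
  have he0 : 0 < e := by rw [he]; exact lt_min hε (by norm_num)
  have he1 : e ≤ 1 / 10 := by rw [he]; exact min_le_right _ _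
  have heε : e ≤ ε := by rw [he]; exact min_le_left _ _
  obtain ⟨R, hR1, hR2, hR3⟩ := exists_R (ε := e / 8) (by linarith)
  obtain ⟨b, hb⟩ : ∃ b : ℝ, b = -Real.log (((1 : ℝ) + 1 / R) / 2) := ⟨_, rfl⟩
  rw [← hb] at hR2 hR3
  have hev := analytic (b := b) (ε := e / 8) (by linarith) (by
    norm_num at a2 ⊢
    linarith) (by
    norm_num at b2 ⊢
    linarith) (R + 1)
  have ht1 : Tendsto (fun k : ℕ => (k : ℝ) ^ 2) atTop atTop :=
    (tendsto_pow_atTop two_ne_zero).comp tendsto_natCast_atTop_atTop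
  have ht2 : Tendsto (fun k : ℕ => Real.log (Real.log k)) atTop atTop :=
    Real.tendsto_log_atTop.comp (Real.tendsto_log_atTop.comp tendsto_natCast_atTop_atTop)
  obtain ⟨H₀, hH₀⟩ := eventually_atTop.1 ((ht1.eventually hev).and
    ((ht2.eventually (eventually_ge_atTop (1 / e))).and (eventually_ge_atTop 4)))
  refine ⟨H₀, fun H hHH => ?_⟩
  obtain ⟨⟨y, hy, hK, hana⟩, hx, hH4⟩ := hH₀ H hHH
  have hx0 : 0 < Real.log (Real.log H) := lt_of_lt_of_le (by positivity) hx
  refine ⟨hx0, fun S c hS hh hc h => ?_⟩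
  have hHR : (4 : ℝ) ≤ H := by exact_mod_cast hH4
  have hlk : 0 < Real.log H := Real.log_pos (by linarith)
  have hllK : Real.log (Real.log ((H : ℝ) ^ 2)) = Real.log (Real.log H) + Real.log 2 := by
    have hlK : Real.log ((H : ℝ) ^ 2) = 2 * Real.log H := by
      rw [Real.log_pow]
      norm_num
    rw [hlK, Real.log_mul (by norm_num) hlk.ne']
    ring
  obtain ⟨P, hPd⟩ : ∃ P : Finset ℕ, P = Nat.primesLE y := ⟨_, rfl⟩
  rw [← hPd] at hana
  have hP : ∀ p ∈ P, p.Prime := fun p hp => Nat.prime_of_mem_primesLE (hPd ▸ hp)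
  obtain ⟨M, hM⟩ : ∃ M : ℕ, M = ∏ p ∈ P, p := ⟨_, rfl⟩
  have hM0 : 0 < M := by rw [hM]; exact prod_pos fun p hp => (hP p hp).pos
  have hM2 : 2 ≤ M := by
    have h2 : 2 ∈ P := by rw [hPd]; exact Nat.mem_primesLE.2 ⟨hy, Nat.prime_two⟩
    have h3 : 2 ∣ M := by rw [hM]; exact dvd_prod_of_mem _ h2
    exact Nat.le_of_dvd hM0 h3
  have hlogM : Real.log M = ∑ p ∈ P, Real.log p := by
    rw [hM]
    push_cast
    exact Real.log_prod fun p hp => by exact_mod_cast (hP p hp).ne_zero
  have hlogM0 : 0 < Real.log M := Real.log_pos (by exact_mod_cast hM2)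
  have hne : (Parab.set M).Nonempty := by
    refine Finset.Nonempty.image ?_ _
    exact ⟨0, mem_range.2 hM0⟩
  obtain ⟨r, hr, hle⟩ := h (Parab.set M) hne
  rw [card_diff] at hle
  -- the coefficients
  have hw0 : cu r + cv r ≠ 0 := by
    cases r with
    | none => simp [cu, cv]
    | some t =>
      simp only [cu, cv]
      intro h1
      apply hS
      have h2 : t = -1 := by
        have h3 : (t.num : ℚ) = -t.den := by
          have : t.num = -(t.den : ℤ) := by linarith
          exact_mod_cast this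
        have h4 : (t.den : ℚ) ≠ 0 := by exact_mod_cast t.den_nz
        rw [← Rat.num_div_den t, h3]
        field_simp
      rw [← h2]
      exact hr
  have hbd : (cu r).natAbs ≤ H ∧ (cu r + cv r).natAbs ≤ 2 * H := by
    cases r with
    | none =>
      simp only [cu, cv]
      omega
    | some t =>
      obtain ⟨h1, h2⟩ := hh t hr
      simp only [cu, cv]
      have h3 := abs_le.1 h2
      omega
  obtain ⟨ω, hω, hcard⟩ := card_bad hP hw0
  have hcard2 := card_goodR (R := R) (P := P) (w := cu r + cv r)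
  have hH2 : 3 * H + 1 ≤ H ^ 2 := by nlinarith
  have hω' : (3 : ℝ) ^ ω ≤ (H : ℝ) ^ 2 := by
    have h1 : 3 ^ ω ≤ H ^ 2 := by omega
    exact_mod_cast h1
  obtain ⟨g, hg⟩ : ∃ g : ℕ, g = (goodR R P (cu r + cv r)).card := ⟨_, rfl⟩
  have hT := hana g ω hω' (by omega)
  rw [← hlogM] at hT
  -- the size of the projection
  have hV := card_V_beta hP (cu r) (cu r + cv r) hR1
  rw [← hM, ← hg] at hV
  have hMr : (∏ p ∈ P, (p : ℝ)) = M := by
    rw [hM]
    push_cast
    rfl
  rw [hMr] at hV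
  have hMp : (0 : ℝ) < M := by exact_mod_cast hM0
  have hβ : (0 : ℝ) < (1 + 1 / R) / 2 := by positivity
  have hV2 : ((proj r (Parab.set M)).card : ℝ) ≤ (H : ℝ) ^ 2 * (M * ((1 + 1 / R) / 2) ^ g) := by
    have h1 : ((proj r (Parab.set M)).card : ℝ) ≤ (V M (cu r) (cu r + cv r)).card := by
      exact_mod_cast card_proj_le M r
    refine (h1.trans hV).trans (mul_le_mul_of_nonneg_right ?_ (by positivity))
    have h2 : (cu r).natAbs + (cu r + cv r).natAbs + 1 ≤ H ^ 2 := by omega
    exact_mod_cast h2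
  have hc1 : (1 : ℝ) ≤ (proj r (Parab.set M)).card := by
    have h1 : 0 < (proj r (Parab.set M)).card := card_pos.2 (hne.image _)
    exact_mod_cast h1
  have hlog : Real.log (proj r (Parab.set M)).card ≤ Real.log M - (g * b - Real.log ((H : ℝ) ^ 2)) := by
    have h1 := Real.log_le_log (by linarith) hV2
    rw [Real.log_mul (by positivity) (by positivity), Real.log_mul hMp.ne' (by positivity),
      Real.log_pow ((1 + 1 / (R : ℝ)) / 2)] at h1
    have h3 : (g : ℝ) * Real.log ((1 + 1 / R) / 2) = -(g * b) := by rw [hb]; ring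
    rw [h3] at h1
    linarith
  have h4 := compare (X := Real.log (Real.log ((H : ℝ) ^ 2))) he0 he1 hx (by
    rw [hllK]
    have : 0 < Real.log 2 := Real.log_pos (by norm_num)
    linarith) hllK.le (b := b) (by linarith)
  have h5 : (Real.log 2 - ε) / Real.log (Real.log H) ≤ (Real.log 2 - e) / Real.log (Real.log H) := by
    apply div_le_div_of_nonneg_right _ hx0.le
    linarith
  obtain ⟨τ, hτ⟩ : ∃ τ : ℝ, τ = (Real.log 2 - ε) / Real.log (Real.log H) := ⟨_, rfl⟩
  rw [← hτ] at h5 ⊢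
  have h6 : τ * Real.log M ≤ (b - e / 8) / Real.log (Real.log ((H : ℝ) ^ 2)) * Real.log M :=
    mul_le_mul_of_nonneg_right (h5.trans h4) hlogM0.le
  have hlog2 : Real.log (proj r (Parab.set M)).card ≤ Real.log M * (1 - τ) := by
    have : Real.log M * (1 - τ) = Real.log M - τ * Real.log M := by ring
    rw [this]
    linarith
  have h7 : Real.log M ≤ c * (Real.log M * (1 - τ)) := by
    have h8 := Real.log_le_log (by exact_mod_cast hM0) hle
    rw [Real.log_rpow (by linarith)] at h8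
    exact h8.trans (mul_le_mul_of_nonneg_left hlog2 hc)
  have h8 : Real.log M * 1 ≤ Real.log M * (c * (1 - τ)) := by
    calc Real.log M * 1 ≤ c * (Real.log M * (1 - τ)) := by rw [mul_one]; exact h7
      _ = _ := by ring
  have h9 : 1 ≤ c * (1 - τ) := le_of_mul_le_mul_left h8 hlogM0
  have hc0 : 0 < c := by
    rcases hc.lt_or_eq with h10 | h10
    · exact h10
    · rw [← h10] at h9
      norm_num at h9
  rcases lt_or_ge τ 1 with h10 | h10
  · have h11 : 1 - τ ^ 2 ≤ 1 := by nlinarith [sq_nonneg τ]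
    have h12 : (1 + τ) * (1 - τ) ≤ c * (1 - τ) := by nlinarith
    exact le_of_mul_le_mul_right h12 (by linarith)
  · nlinarith

end Pool.Agent.H22.ParabAsymGH
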