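import Pool.Agent.H22.GH.Theta

/-!
Typical sets of sequences of pairs of integers with Gaussian weights: lower bound for the number of
the typical sequences, upper bounds for their images and fibres under linear forms.
-/

set_option autoImplicit false

namespace Pool.Agent.H22.GH

open Finset MeasureTheory Filter Topology Pool.Agent.N68.Corner

/-! ### Exponential moments -/

/-- sequences of length `n` with entries in `F` -/
def W (F : Finset (ℤ × ℤ)) (n : ℕ) : Finset (Fin n → ℤ × ℤ) := Fintype.piFinset fun _ => F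

lemma mem_W {F : Finset (ℤ × ℤ)} {n : ℕ} {w : Fin n → ℤ × ℤ} : w ∈ W F n ↔ ∀ i, w i ∈ F := by
  unfold W
  exact Fintype.mem_piFinset

lemma sum_W (F : Finset (ℤ × ℤ)) (n : ℕ) (f : ℤ × ℤ → ℝ) :
    ∑ w ∈ W F n, ∏ i, f (w i) = (∑ x ∈ F, f x) ^ n := by
  unfold W
  rw [← Finset.prod_univ_sum (fun _ : Fin n => F) (fun _ => f)]
  simp

open Classical in
lemma chernoff (F : Finset (ℤ × ℤ)) (f g : ℤ × ℤ → ℝ) (hf : ∀ w, 0 ≤ f w) (n : ℕ) (a : ℝ) :
    ∑ w ∈ (W F n).filter (fun w : Fin n → ℤ × ℤ => (n : ℝ) * a ≤ ∑ i, g (w i)), ∏ i, f (w i) ≤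
      (Real.exp (-a) * ∑ x ∈ F, Real.exp (g x) * f x) ^ n := by
  rw [mul_pow, ← sum_W, mul_sum]
  refine le_trans ?_ (sum_le_sum_of_subset_of_nonneg
    (filter_subset (fun w : Fin n → ℤ × ℤ => (n : ℝ) * a ≤ ∑ i, g (w i)) (W F n))
    fun w _ _ => by
      have : 0 ≤ ∏ i, Real.exp (g (w i)) * f (w i) :=
        prod_nonneg fun i _ => mul_nonneg (Real.exp_pos _).le (hf _)
      positivity)
  refine sum_le_sum fun w hw => ?_
  rw [mem_filter] at hw
  have h0 : 0 ≤ ∏ i, f (w i) := prod_nonneg fun i _ => hf _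
  rw [prod_mul_distrib, ← Real.exp_sum, ← mul_assoc, ← Real.exp_nat_mul, ← Real.exp_add]
  have h1 : 1 ≤ Real.exp (n * -a + ∑ i, g (w i)) := by
    apply Real.one_le_exp
    linarith [hw.2]
  nlinarith

open Classical in
lemma sum_bad {α E : Type*} [Fintype E] (T : Finset α) (f : α → ℝ) (hf : ∀ w, 0 ≤ f w)
    (P : E → α → Prop) :
    ∑ w ∈ T.filter (fun w => ∃ e, P e w), f w ≤ ∑ e, ∑ w ∈ T.filter (fun w => P e w), f w := by
  simp only [sum_filter]
  rw [sum_comm]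
  refine sum_le_sum fun w _ => ?_
  split_ifs with h
  · obtain ⟨e, he⟩ := h
    have h1 : (fun e => if P e w then f w else 0) e ≤ ∑ e, if P e w then f w else 0 := by
      refine single_le_sum (f := fun e => if P e w then f w else 0) (fun e _ => ?_) (mem_univ e)
      split_ifs
      · exact hf w
      · exact le_rfl
    simpa only [if_pos he] using h1
  · refine sum_nonneg fun e _ => ?_
    split_ifs
    · exact hf w
    · exact le_rfl

open Classical in
lemma typical {E : Type*} [Fintype E] (F : Finset (ℤ × ℤ)) (f : ℤ × ℤ → ℝ) (hf : ∀ w, 0 ≤ f w)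
    (g : E → ℤ × ℤ → ℝ) (a : E → ℝ) {ρ : ℝ}
    (h : ∀ e, Real.exp (-a e) * ∑ x ∈ F, Real.exp (g e x) * f x ≤ ρ * ∑ x ∈ F, f x) (n : ℕ)
    (hn : Fintype.card E * ρ ^ n ≤ 1 / 2) :
    1 / 2 * (∑ x ∈ F, f x) ^ n ≤
      ∑ w ∈ (W F n).filter (fun w => ∀ e, ∑ i, g e (w i) < n * a e), ∏ i, f (w i) := by
  have hT : 0 ≤ ∑ x ∈ F, f x := sum_nonneg fun x _ => hf x
  have h1 : ∑ w ∈ (W F n).filter (fun w => ¬ ∀ e, ∑ i, g e (w i) < n * a e), ∏ i, f (w i) ≤
      ∑ e : E, (ρ * ∑ x ∈ F, f x) ^ n := by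
    have h2 : (W F n).filter (fun w => ¬ ∀ e, ∑ i, g e (w i) < n * a e) =
        (W F n).filter (fun w => ∃ e, n * a e ≤ ∑ i, g e (w i)) := by
      refine filter_congr fun w _ => ?_
      push Not
      rfl
    rw [h2]
    have h5 := sum_bad (W F n) (fun w => ∏ i, f (w i)) (fun w => prod_nonneg fun i _ => hf _)
      (fun (e : E) w => (n : ℝ) * a e ≤ ∑ i, g e (w i))
    refine h5.trans ?_
    refine sum_le_sum fun e _ => ?_
    refine (chernoff F f (g e) hf n (a e)).trans ?_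
    refine pow_le_pow_left₀ ?_ (h e) n
    have : 0 ≤ ∑ x ∈ F, Real.exp (g e x) * f x :=
      sum_nonneg fun x _ => mul_nonneg (Real.exp_pos _).le (hf x)
    positivity
  rw [sum_const, card_univ, nsmul_eq_mul, mul_pow, ← mul_assoc] at h1
  have h3 : (Fintype.card E * ρ ^ n) * (∑ x ∈ F, f x) ^ n ≤ 1 / 2 * (∑ x ∈ F, f x) ^ n :=
    mul_le_mul_of_nonneg_right hn (pow_nonneg hT n)
  have h4 := sum_filter_add_sum_filter_not (W F n)
    (fun w => ∀ e, ∑ i, g e (w i) < n * a e) (fun w => ∏ i, f (w i))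
  rw [sum_W] at h4
  linarith

end Pool.Agent.H22.GH
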