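import Pool.Graph.R_pool_sql_team_seeded_63374d34.N68.Corner.Theta

/-!
Two-sided bounds for the sums of a Gaussian function over finite sets of integers and of pairs of
integers.
-/

set_option autoImplicit false

namespace Pool.Agent.H22.GH

open Finset MeasureTheory Filter Topology Pool.Agent.N68.Corner

/-- sums over `0, ..., K - 1`, shift at least `0` -/
lemma half_le {κ : ℝ} (hκ : 0 < κ) (K : ℕ) (s : ℝ) (h0 : 0 ≤ s) :
    ∑ i ∈ range K, g κ (i + s) ≤ 1 + Real.sqrt (Real.pi / κ) / 2 := by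
  have h1 := sum_le hκ 1 one_pos K
  refine le_trans (sum_le_sum fun i _ => ?_) (by simpa using h1)
  apply g_anti hκ.le
  have hi : (0 : ℝ) ≤ i := Nat.cast_nonneg i
  rw [abs_of_nonneg hi, abs_of_nonneg (by linarith)]
  linarith

/-- sums over finite sets of integers, arbitrary shift -/
lemma line_le {κ : ℝ} (hκ : 0 < κ) (X : Finset ℤ) (c : ℝ) :
    ∑ x ∈ X, g κ ((x : ℝ) + c) ≤ 2 + Real.sqrt (Real.pi / κ) := by
  classical
  obtain ⟨K, hK⟩ : ∃ K : ℕ, X ⊆ Ico (-(K : ℤ) - ⌊c⌋) (K - ⌊c⌋) := by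
    refine ⟨∑ x ∈ X, ((x + ⌊c⌋).natAbs + 1), fun x hx => ?_⟩
    have h1 : (x + ⌊c⌋).natAbs + 1 ≤ ∑ x ∈ X, ((x + ⌊c⌋).natAbs + 1) :=
      single_le_sum (f := fun x : ℤ => (x + ⌊c⌋).natAbs + 1) (fun _ _ => Nat.zero_le _) hx
    rw [mem_Ico]
    omega
  have h2 : ∑ x ∈ X, g κ ((x : ℝ) + c) ≤
      ∑ x ∈ Ico (-(K : ℤ) - ⌊c⌋) (K - ⌊c⌋), g κ ((x : ℝ) + c) :=
    sum_le_sum_of_subset_of_nonneg hK fun _ _ _ => (g_pos _ _).le
  have h3 : ∑ x ∈ Ico (-(K : ℤ) - ⌊c⌋) (K - ⌊c⌋), g κ ((x : ℝ) + c) =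
      ∑ i ∈ Ico (-(K : ℤ)) K, g κ ((i : ℝ) + Int.fract c) := by
    have h4 : Ico (-(K : ℤ) - ⌊c⌋) (K - ⌊c⌋) = (Ico (-(K : ℤ)) K).image (fun i => i - ⌊c⌋) := by
      ext x
      simp only [mem_image, mem_Ico]
      constructor
      · intro h
        exact ⟨x + ⌊c⌋, by omega, by omega⟩
      · rintro ⟨i, hi, rfl⟩
        omega
    rw [h4, sum_image (fun x _ y _ h => by simpa using h)]
    refine sum_congr rfl fun i _ => ?_
    congr 1
    push_cast
    rw [Int.fract]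
    ring
  rw [h3, sum_split] at h2
  have h5 := half_le hκ K (Int.fract c) (Int.fract_nonneg c)
  have h6 := half_le hκ K (1 - Int.fract c) (by linarith [Int.fract_lt_one c])
  have e3 : ∑ k ∈ range K, g κ (((-((k : ℤ) + 1) : ℤ) : ℝ) + Int.fract c) =
      ∑ i ∈ range K, g κ (i + (1 - Int.fract c)) := by
    apply sum_congr rfl
    intro k _
    rw [← g_neg]
    congr 1
    push_cast
    ring
  have e4 : ∑ k ∈ range K, g κ (((k : ℤ) : ℝ) + Int.fract c) =
      ∑ i ∈ range K, g κ (i + Int.fract c) := by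
    apply sum_congr rfl
    intro k _
    norm_cast
  rw [e3, e4] at h2
  linarith

/-- The quadratic form `A x² + 2 B x y + C y²`. -/
def qf (A B C x y : ℝ) : ℝ := A * x ^ 2 + 2 * B * x * y + C * y ^ 2

lemma qf_eq {A : ℝ} (hA : A ≠ 0) (B C x y : ℝ) :
    qf A B C x y = A * (x + B / A * y) ^ 2 + (A * C - B ^ 2) / A * y ^ 2 := by
  unfold qf
  field_simp
  ring

/-- sums over finite sets of pairs of integers -/
lemma plane_le {A B C : ℝ} (hA : 0 < A) (hD : 0 < A * C - B ^ 2) {t : ℝ} (ht : 0 < t)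
    (F : Finset (ℤ × ℤ)) :
    ∑ w ∈ F, Real.exp (-(qf A B C w.1 w.2 / t ^ 2)) ≤
      (2 + t * Real.sqrt (Real.pi / A)) * (2 + t * Real.sqrt (Real.pi * A / (A * C - B ^ 2))) := by
  classical
  have hsub : F ⊆ (F.image Prod.fst) ×ˢ (F.image Prod.snd) := by
    intro w hw
    rw [mem_product]
    exact ⟨mem_image_of_mem _ hw, mem_image_of_mem _ hw⟩
  refine le_trans (sum_le_sum_of_subset_of_nonneg hsub fun _ _ _ => (Real.exp_pos _).le) ?_
  rw [sum_product_right]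
  have hκ : 0 < A / t ^ 2 := by positivity
  have hκ' : 0 < (A * C - B ^ 2) / A / t ^ 2 := by positivity
  have e1 : Real.sqrt (Real.pi / (A / t ^ 2)) = t * Real.sqrt (Real.pi / A) := by
    have : Real.pi / (A / t ^ 2) = t ^ 2 * (Real.pi / A) := by field_simp
    rw [this, Real.sqrt_mul (by positivity), Real.sqrt_sq ht.le]
  have e2 : Real.sqrt (Real.pi / ((A * C - B ^ 2) / A / t ^ 2)) =
      t * Real.sqrt (Real.pi * A / (A * C - B ^ 2)) := by
    have : Real.pi / ((A * C - B ^ 2) / A / t ^ 2) = t ^ 2 * (Real.pi * A / (A * C - B ^ 2)) := by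
      field_simp
    rw [this, Real.sqrt_mul (by positivity), Real.sqrt_sq ht.le]
  calc ∑ y ∈ F.image Prod.snd, ∑ x ∈ F.image Prod.fst, Real.exp (-(qf A B C (x : ℤ) (y : ℤ) / t ^ 2))
      = ∑ y ∈ F.image Prod.snd, g ((A * C - B ^ 2) / A / t ^ 2) ((y : ℝ) + 0) *
          ∑ x ∈ F.image Prod.fst, g (A / t ^ 2) ((x : ℝ) + B / A * y) := by
        refine sum_congr rfl fun y _ => ?_
        rw [mul_sum]
        refine sum_congr rfl fun x _ => ?_
        unfold g
        rw [← Real.exp_add, qf_eq hA.ne']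
        congr 1
        field_simp
        ring
    _ ≤ ∑ y ∈ F.image Prod.snd, g ((A * C - B ^ 2) / A / t ^ 2) ((y : ℝ) + 0) *
          (2 + t * Real.sqrt (Real.pi / A)) := by
        refine sum_le_sum fun y _ => mul_le_mul_of_nonneg_left ?_ (g_pos _ _).le
        have := line_le hκ (F.image Prod.fst) (B / A * y)
        rwa [e1] at this
    _ = (∑ y ∈ F.image Prod.snd, g ((A * C - B ^ 2) / A / t ^ 2) ((y : ℝ) + 0)) *
          (2 + t * Real.sqrt (Real.pi / A)) := by rw [sum_mul]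
    _ ≤ (2 + t * Real.sqrt (Real.pi * A / (A * C - B ^ 2))) *
          (2 + t * Real.sqrt (Real.pi / A)) := by
        refine mul_le_mul_of_nonneg_right ?_ (by positivity)
        have := line_le hκ' (F.image Prod.snd) 0
        rwa [e2] at this
    _ = _ := mul_comm _ _

/-- a finite set of pairs of integers with nearly the full Gaussian sum -/
lemma plane_ge {A B C : ℝ} (hA : 0 < A) (hD : 0 < A * C - B ^ 2) {t : ℝ} (ht : 0 < t)
    (h1 : 2 ≤ t * Real.sqrt (Real.pi / A)) :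
    ∃ F : Finset (ℤ × ℤ),
      (t * Real.sqrt (Real.pi / A) - 2) * (t * Real.sqrt (Real.pi * A / (A * C - B ^ 2)) - 2) ≤
        ∑ w ∈ F, Real.exp (-(qf A B C w.1 w.2 / t ^ 2)) := by
  classical
  have hκ : 0 < A / t ^ 2 := by positivity
  have hκ' : 0 < (A * C - B ^ 2) / A / t ^ 2 := by positivity
  have e1 : Real.sqrt (Real.pi / (A / t ^ 2)) = t * Real.sqrt (Real.pi / A) := by
    have : Real.pi / (A / t ^ 2) = t ^ 2 * (Real.pi / A) := by field_simp
    rw [this, Real.sqrt_mul (by positivity), Real.sqrt_sq ht.le]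
  have e2 : Real.sqrt (Real.pi / ((A * C - B ^ 2) / A / t ^ 2)) =
      t * Real.sqrt (Real.pi * A / (A * C - B ^ 2)) := by
    have : Real.pi / ((A * C - B ^ 2) / A / t ^ 2) = t ^ 2 * (Real.pi * A / (A * C - B ^ 2)) := by
      field_simp
    rw [this, Real.sqrt_mul (by positivity), Real.sqrt_sq ht.le]
  obtain ⟨K, hK1, hK2⟩ : ∃ K : ℕ, Real.sqrt (Real.pi / (A / t ^ 2)) / 2 - 1 / 2 < J (A / t ^ 2) K ∧
      Real.sqrt (Real.pi / ((A * C - B ^ 2) / A / t ^ 2)) / 2 - 1 / 2 <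
        J ((A * C - B ^ 2) / A / t ^ 2) K :=
    (((J_tendsto hκ).eventually_const_lt (by linarith)).and
      ((J_tendsto hκ').eventually_const_lt (by linarith))).exists
  rw [e1] at hK1
  rw [e2] at hK2
  let φ : ℤ × ℤ → ℤ × ℤ := fun p => (p.1 - ⌊B / A * p.2⌋, p.2)
  have hinj : Function.Injective φ := by
    rintro ⟨x, y⟩ ⟨x', y'⟩ h
    simp only [φ, Prod.mk.injEq] at h
    obtain ⟨ha, hb⟩ := h
    subst hb
    simp only [Prod.mk.injEq, and_true]
    linarith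
  refine ⟨((Ico (-(K : ℤ)) K) ×ˢ (Ico (-(K : ℤ)) K)).image φ, ?_⟩
  rw [sum_image (fun x _ y _ h => hinj h), sum_product_right]
  have e3 : ∀ y ∈ Ico (-(K : ℤ)) K, g ((A * C - B ^ 2) / A / t ^ 2) ((y : ℝ) + 0) *
      (t * Real.sqrt (Real.pi / A) - 2) ≤
      ∑ x ∈ Ico (-(K : ℤ)) K, Real.exp (-(qf A B C ((φ (x, y)).1 : ℤ) ((φ (x, y)).2 : ℤ) / t ^ 2)) := by
    intro y _
    have h3 := sum_shift_ge hκ.le K (Int.fract (B / A * y)) (Int.fract_nonneg _)
      (Int.fract_lt_one _).le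
    have h4 : ∑ x ∈ Ico (-(K : ℤ)) K,
        Real.exp (-(qf A B C ((φ (x, y)).1 : ℤ) ((φ (x, y)).2 : ℤ) / t ^ 2)) =
        g ((A * C - B ^ 2) / A / t ^ 2) ((y : ℝ) + 0) *
          ∑ i ∈ Ico (-(K : ℤ)) K, g (A / t ^ 2) (i + Int.fract (B / A * y)) := by
      rw [mul_sum]
      refine sum_congr rfl fun x _ => ?_
      unfold g
      rw [← Real.exp_add, qf_eq hA.ne']
      congr 1
      simp only [φ, Int.fract]
      push_cast
      field_simp
      ring
    rw [h4]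
    refine mul_le_mul_of_nonneg_left (le_trans ?_ h3) (g_pos _ _).le
    linarith
  refine le_trans ?_ (sum_le_sum e3)
  rw [← sum_mul, mul_comm]
  refine mul_le_mul_of_nonneg_right ?_ (by linarith)
  have h5 := sum_shift_ge hκ'.le K 0 le_rfl zero_le_one
  refine le_trans ?_ h5
  linarith

end Pool.Agent.H22.GH
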