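import Pool.Graph.R_pool_sql_team_seeded_64922ed1.Results.MP_169869_co.FibreMultiplicity
import Pool.Agent.H22.GH.Law2
import Pool.Agent.H22.Hom

/-!
From sets of sequences of pairs of integers to sets of pairs of integers.
-/

set_option autoImplicit false

namespace Pool.Agent.H22.GH

open Finset
open Pool.Agent.Results.MP_169869_co.GeometricMeans (proj MaxBound)
open Pool.Agent.Results.MP_169869_co.FibreMultiplicity (mult)
open Pool.Agent.Results.MP_169869_co.FibreMultiplicity.Aux4 (cu cv card_proj)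
open Pool.Agent.X163.Ak.Mult (form)

lemma lin_sub (x y w : ℤ × ℤ) : lin (x - y) w = lin x w - lin y w := by
  unfold lin
  simp only [Prod.fst_sub, Prod.snd_sub]
  ring

lemma lin_comb (u v : ℤ) (x y w : ℤ × ℤ) : lin (u • x + v • y) w = u * lin x w + v * lin y w := by
  unfold lin
  simp only [Prod.fst_add, Prod.snd_add, Prod.smul_fst, Prod.smul_snd, smul_eq_mul]
  ring

theorem transfer {S : Finset (Option ℚ)} (hS : some (-1) ∉ S) {c : ℝ} (hc1 : 1 ≤ c) (hc2 : c ≤ 2)
    (h : MaxBound S c) {J : Type*} [Fintype J] {n : ℕ} (x y : J → ℤ × ℤ)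
    (hdet : ∀ j, (x j).1 * (y j).2 - (x j).2 * (y j).1 ≠ 0)
    (A : J → Finset (Fin n → ℤ × ℤ)) (hA : ∀ j, (A j).Nonempty) (M : J → ℕ)
    (hM : ∀ j, ∀ z : Fin n → ℤ,
      ((A j).filter (fun w => ∀ k, lin (x j - y j) (w k) = z k)).card ≤ M j) :
    ∃ r ∈ S, ∏ j, ((A j).card : ℝ) ≤ (∏ j, (M j : ℝ)) ^ (2 - c) *
      (∏ j, (((A j).image (fun w k => lin (cu r • x j + cv r • y j) (w k))).card : ℝ)) ^ c := by
  classical
  let T : Finset (J → Fin n → ℤ × ℤ) := Fintype.piFinset A
  let X : (J → Fin n → ℤ × ℤ) → (J × Fin n → ℤ) := fun w p => lin (x p.1) (w p.1 p.2)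
  let Y : (J → Fin n → ℤ × ℤ) → (J × Fin n → ℤ) := fun w p => lin (y p.1) (w p.1 p.2)
  have hTne : T.Nonempty := by
    choose w hw using hA
    exact ⟨w, Fintype.mem_piFinset.2 hw⟩
  obtain ⟨φ, hφ⟩ := Pool.Agent.H22.Hom.exists_hom
    (T.image X ∪ (T.image Y ∪ T.image (fun w => X w - Y w)))
  have hφX : ∀ w ∈ T, ∀ w' ∈ T, φ (X w) = φ (X w') → X w = X w' := fun w hw w' hw' he =>
    hφ (by
      rw [mem_coe, mem_union]
      exact Or.inl (mem_image_of_mem _ hw)) (by
      rw [mem_coe, mem_union]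
      exact Or.inl (mem_image_of_mem _ hw')) he
  have hφY : ∀ w ∈ T, ∀ w' ∈ T, φ (Y w) = φ (Y w') → Y w = Y w' := fun w hw w' hw' he =>
    hφ (by
      rw [mem_coe, mem_union, mem_union]
      exact Or.inr (Or.inl (mem_image_of_mem _ hw))) (by
      rw [mem_coe, mem_union, mem_union]
      exact Or.inr (Or.inl (mem_image_of_mem _ hw'))) he
  have hφD : ∀ w ∈ T, ∀ w' ∈ T, φ (X w - Y w) = φ (X w' - Y w') → X w - Y w = X w' - Y w' :=
    fun w hw w' hw' he => hφ (by
      rw [mem_coe, mem_union, mem_union]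
      exact Or.inr (Or.inr (mem_image_of_mem (fun w => X w - Y w) hw))) (by
      rw [mem_coe, mem_union, mem_union]
      exact Or.inr (Or.inr (mem_image_of_mem (fun w => X w - Y w) hw'))) he
  let ψ : (J → Fin n → ℤ × ℤ) → ℤ × ℤ := fun w => (φ (X w), φ (Y w))
  have hXY : ∀ w w' : J → Fin n → ℤ × ℤ, X w = X w' → Y w = Y w' → w = w' := by
    intro w w' h1 h2
    funext j k
    have e1 : lin (x j) (w j k) = lin (x j) (w' j k) := congrFun h1 (j, k)
    have e2 : lin (y j) (w j k) = lin (y j) (w' j k) := congrFun h2 (j, k)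
    unfold lin at e1 e2
    have hd := hdet j
    refine Prod.ext (mul_left_cancel₀ hd ?_) (mul_left_cancel₀ hd ?_)
    · linear_combination (y j).2 * e1 - (x j).2 * e2
    · linear_combination (x j).1 * e2 - (y j).1 * e1
  have hψ : Set.InjOn ψ T := by
    intro w hw w' hw' he
    have he' := Prod.ext_iff.1 he
    exact hXY w w' (hφX w hw w' hw' he'.1) (hφY w hw w' hw' he'.2)
  obtain ⟨A', hA'⟩ : ∃ A' : Finset (ℤ × ℤ), A' = T.image ψ := ⟨_, rfl⟩
  have hcard : A'.card = ∏ j, (A j).card := by
    rw [hA', card_image_of_injOn hψ]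
    exact Fintype.card_piFinset A
  have hne : A'.Nonempty := by
    rw [hA']
    exact hTne.image _
  have hmult : ∀ e, mult A' e ≤ ∏ j, M j := by
    intro e
    unfold mult
    have h1 : (A'.filter (fun z => z.1 - z.2 = e)).card ≤
        (T.filter (fun w => φ (X w) - φ (Y w) = e)).card := by
      have h2 : A'.filter (fun z => z.1 - z.2 = e) ⊆
          (T.filter (fun w => φ (X w) - φ (Y w) = e)).image ψ := by
        intro z hz
        rw [mem_filter, hA', mem_image] at hz
        obtain ⟨⟨w, hw, rfl⟩, he⟩ := hz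
        exact mem_image_of_mem _ (mem_filter.2 ⟨hw, he⟩)
      exact (card_le_card h2).trans card_image_le
    refine h1.trans ?_
    rcases (T.filter (fun w => φ (X w) - φ (Y w) = e)).eq_empty_or_nonempty with he | ⟨w0, hw0⟩
    · rw [he, card_empty]
      exact Nat.zero_le _
    have h3 : T.filter (fun w => φ (X w) - φ (Y w) = e) ⊆
        Fintype.piFinset (fun j => (A j).filter
          (fun w => ∀ k, lin (x j - y j) (w k) = lin (x j - y j) (w0 j k))) := by
      intro w hw
      rw [mem_filter] at hw hw0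
      have h4 : X w - Y w = X w0 - Y w0 := by
        apply hφD w hw.1 w0 hw0.1
        rw [map_sub, map_sub, hw.2, hw0.2]
      rw [Fintype.mem_piFinset]
      intro j
      rw [mem_filter]
      refine ⟨Fintype.mem_piFinset.1 hw.1 j, fun k => ?_⟩
      rw [lin_sub, lin_sub]
      exact congrFun h4 (j, k)
    refine (card_le_card h3).trans ?_
    rw [Fintype.card_piFinset]
    exact prod_le_prod' fun j _ => hM j _
  obtain ⟨r, hr, h1⟩ := (Pool.Agent.Results.MP_169869_co.FibreMultiplicity.result.1 S c hS hc1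
    hc2).2 h A' _ hne hmult
  refine ⟨r, hr, ?_⟩
  rw [hcard] at h1
  push_cast at h1
  refine h1.trans ?_
  refine mul_le_mul_of_nonneg_left ?_ (by positivity)
  refine Real.rpow_le_rpow (Nat.cast_nonneg _) ?_ (by linarith)
  rw [card_proj]
  have h5 : A'.image (form (cu r) (cv r)) ⊆
      (Fintype.piFinset (fun j => (A j).image
        (fun w k => lin (cu r • x j + cv r • y j) (w k)))).image
        (fun u : J → Fin n → ℤ => φ (fun p => u p.1 p.2)) := by
    intro z hz
    rw [mem_image] at hz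
    obtain ⟨p, hp, rfl⟩ := hz
    rw [hA', mem_image] at hp
    obtain ⟨w, hw, rfl⟩ := hp
    rw [mem_image]
    refine ⟨fun j k => lin (cu r • x j + cv r • y j) (w j k), ?_, ?_⟩
    · rw [Fintype.mem_piFinset]
      intro j
      exact mem_image_of_mem _ (Fintype.mem_piFinset.1 hw j)
    · have h6 : (fun p : J × Fin n => lin (cu r • x p.1 + cv r • y p.1) (w p.1 p.2)) =
          cu r • X w + cv r • Y w := by
        funext p
        rw [lin_comb]
        simp [X, Y]
      show φ (fun p : J × Fin n => lin (cu r • x p.1 + cv r • y p.1) (w p.1 p.2)) =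
        form (cu r) (cv r) (ψ w)
      rw [h6, map_add, map_zsmul, map_zsmul]
      simp [form, ψ]
  have h7 := (card_le_card h5).trans card_image_le
  rw [Fintype.card_piFinset] at h7
  exact_mod_cast h7

end Pool.Agent.H22.GH
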